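import Pool.Agent.Cofactor.Cmat

set_option autoImplicit false

open Polynomial
open Classical

namespace Pool.Agent.Cofactor

lemma rank_bip_ge (s m n : ℕ) (hm : s + 2 ≤ m) (hn : s + 2 ≤ n)
    (h : (s + 1).choose 2 ≤ (m - s - 1) * (n - s - 1)) :
    ∃ x y : (Fin m ⊕ Fin n) → ℝ, (s + 1) * (m + n) ≤
      (cmat s (completeBipartiteGraph (Fin m) (Fin n)) x y).rank + (s + 2).choose 2 := by
  obtain ⟨b, hb⟩ : ∃ b, n = b + s + 1 := ⟨n - s - 1, by omega⟩
  obtain ⟨a, ha⟩ : ∃ a, m = a + s + 1 := ⟨m - s - 1, by omega⟩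
  have hb0 : 0 < b := by omega
  have hkey : (s + 1) * b + (s + 1).choose 2 ≤ m * b := by
    have h1 : m - s - 1 = a := by omega
    have h2 : n - s - 1 = b := by omega
    rw [h1, h2] at h
    rw [ha]
    nlinarith
  obtain ⟨α, β, hβ, hK⟩ := key s m b hb0 hkey
  have hθinj : Function.Injective (fun j : Fin n => ((j : ℕ) : ℝ)) := by
    intro j j' hj
    have hj' : ((j : ℕ) : ℝ) = ((j' : ℕ) : ℝ) := hj
    exact Fin.ext (by exact_mod_cast hj')
  obtain ⟨lam, hlam, hmom⟩ := exists_weights (n := n) (by omega) (fun j : Fin n => ((j : ℕ) : ℝ))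
    hθinj
  refine ⟨Sum.elim (fun i => -(β i)⁻¹) (fun _ => 0),
    Sum.elim (fun i => -(α i) / (β i)) (fun j => ((j : ℕ) : ℝ)), ?_⟩
  set x : (Fin m ⊕ Fin n) → ℝ := Sum.elim (fun i => -(β i)⁻¹) (fun _ => 0) with hx
  set y : (Fin m ⊕ Fin n) → ℝ := Sum.elim (fun i => -(α i) / (β i)) (fun j => ((j : ℕ) : ℝ)) with hy
  set ι : (Fin m ⊕ Fin n) → ℕ := Sum.elim (fun i => n + i) (fun j => (j : ℕ)) with hι
  have hιinj : Function.Injective ι := by
    intro p q hpq
    rcases p with i | j <;> rcases q with i' | j' <;> simp only [hι, Sum.elim_inl, Sum.elim_inr] at hpq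
    · congr 1; apply Fin.ext; omega
    · have := j'.2; omega
    · have := j.2; omega
    · congr 1; apply Fin.ext; omega
  have h1 := rank_lower (cmat s (completeBipartiteGraph (Fin m) (Fin n)) x y)
    (Finset.univ.filter (fun c : (Fin m ⊕ Fin n) × Fin (s + 1) => ι c.1 + (c.2 : ℕ) < s + 1)) ?_
  · have h2 := card_S s ι hιinj
    rw [Fintype.card_prod, Fintype.card_fin, Fintype.card_sum, Fintype.card_fin, Fintype.card_fin] at h1
    rw [mul_comm (s + 1)]
    omega
  intro v hv hS
  -- the edge equations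
  have hedge : ∀ (i : Fin m) (j : Fin n),
      ∑ k : Fin (s + 1), v (Sum.inl i, k) * (α i + β i * ((j : ℕ) : ℝ)) ^ (k : ℕ) =
      ∑ k : Fin (s + 1), v (Sum.inr j, k) * (α i + β i * ((j : ℕ) : ℝ)) ^ (k : ℕ) := by
    intro i j
    have h2 := congrFun hv (Sum.inl i, Sum.inr j)
    rw [mulVec_cmat, if_pos (by simp [completeBipartiteGraph])] at h2
    have hβi := hβ i
    have h4 : rowval s x y v (Sum.inl i) (Sum.inr j) =
        (-(β i)⁻¹) ^ s * ∑ k : Fin (s + 1), (v (Sum.inl i, k) - v (Sum.inr j, k)) *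
          (α i + β i * ((j : ℕ) : ℝ)) ^ (k : ℕ) := by
      unfold rowval
      rw [Finset.mul_sum]
      apply Finset.sum_congr rfl
      intro k _
      have hk : (k : ℕ) ≤ s := Nat.lt_succ_iff.1 k.2
      have h5 : x (Sum.inl i) - x (Sum.inr j) = -(β i)⁻¹ := by simp [hx]
      have h6 : y (Sum.inl i) - y (Sum.inr j) = -(β i)⁻¹ * (α i + β i * ((j : ℕ) : ℝ)) := by
        simp only [hy, Sum.elim_inl, Sum.elim_inr]
        field_simp
        ring
      rw [h5, h6, mul_pow]
      have h7 : (-(β i)⁻¹) ^ s = (-(β i)⁻¹) ^ (s - (k : ℕ)) * (-(β i)⁻¹) ^ (k : ℕ) := by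
        rw [← pow_add, Nat.sub_add_cancel hk]
      rw [h7]; ring
    rw [h4] at h2
    rcases mul_eq_zero.1 h2 with h5 | h5
    · exfalso
      have : (-(β i)⁻¹) ≠ 0 := neg_ne_zero.2 (inv_ne_zero hβi)
      exact pow_ne_zero _ this h5
    · rw [← sub_eq_zero, ← Finset.sum_sub_distrib, ← h5]
      apply Finset.sum_congr rfl
      intro k _; ring
  -- the moments
  set G : ℕ → ℕ → ℝ := fun r t => if hr : r < s + 1 then
    ∑ j : Fin n, lam j * v (Sum.inr j, ⟨r, hr⟩) * ((j : ℕ) : ℝ) ^ t else 0 with hG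
  have hGzero : ∀ r ≤ s, ∀ t < b + r, G r t = 0 := by
    apply hK G
    intro i hi c hc
    set L : ℝ[X] := C (α i) + C (β i) * X with hL
    have hLdeg : ∀ r : ℕ, (X ^ c * L ^ r).natDegree ≤ c + r := by
      intro r
      refine natDegree_mul_le.trans ?_
      have h2 : (L ^ r).natDegree ≤ r := by
        refine natDegree_pow_le.trans ?_
        have : L.natDegree ≤ 1 := by
          rw [hL]; compute_degree
        nlinarith
      rw [natDegree_X_pow]
      omega
    have hLeval : ∀ (r : ℕ) (z : ℝ), (X ^ c * L ^ r).eval z = z ^ c * (α i + β i * z) ^ r := by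
      intro r z
      simp [hL]
    have h3 : ∀ r : Fin (s + 1), ∑ t ∈ Finset.range (b + r), (X ^ c * L ^ (r : ℕ)).coeff t * G r t =
        ∑ j : Fin n, lam j * ((j : ℕ) : ℝ) ^ c *
          (v (Sum.inr j, r) * (α i + β i * ((j : ℕ) : ℝ)) ^ (r : ℕ)) := by
      intro r
      have h4 : ∀ t, G r t = ∑ j : Fin n, lam j * v (Sum.inr j, r) * ((j : ℕ) : ℝ) ^ t := by
        intro t
        simp only [hG]
        rw [dif_pos r.2]
      simp only [h4, Finset.mul_sum]
      rw [Finset.sum_comm]
      apply Finset.sum_congr rfl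
      intro j _
      have h5 := eval_eq_sum_range' (p := X ^ c * L ^ (r : ℕ)) (n := b + r)
        (lt_of_le_of_lt (hLdeg r) (by omega)) ((j : ℕ) : ℝ)
      rw [hLeval] at h5
      have h6 : lam j * ((j : ℕ) : ℝ) ^ c * (v (Sum.inr j, r) * (α i + β i * ((j : ℕ) : ℝ)) ^ (r : ℕ)) =
        lam j * v (Sum.inr j, r) * (((j : ℕ) : ℝ) ^ c * (α i + β i * ((j : ℕ) : ℝ)) ^ (r : ℕ)) := by ring
      rw [h6, h5, Finset.mul_sum]
      apply Finset.sum_congr rfl
      intro t _; ring
    rw [Finset.sum_range (n := s + 1)]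
    simp only [h3]
    rw [Finset.sum_comm]
    have h7 : ∀ j : Fin n, ∑ r : Fin (s + 1), lam j * ((j : ℕ) : ℝ) ^ c *
          (v (Sum.inr j, r) * (α i + β i * ((j : ℕ) : ℝ)) ^ (r : ℕ)) =
        ∑ r : Fin (s + 1), v (Sum.inl ⟨i, hi⟩, r) * (lam j *
          (X ^ c * L ^ (r : ℕ)).eval ((j : ℕ) : ℝ)) := by
      intro j
      rw [← Finset.mul_sum, ← hedge ⟨i, hi⟩ j, Finset.mul_sum]
      apply Finset.sum_congr rfl
      intro r _
      rw [hLeval]; ring
    simp only [h7]
    rw [Finset.sum_comm]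
    apply Finset.sum_eq_zero
    intro r _
    rw [← Finset.mul_sum]
    have h8 := moment_poly lam (fun j : Fin n => ((j : ℕ) : ℝ)) hmom (X ^ c * L ^ (r : ℕ)) (by
      have := hLdeg r
      have := r.2
      omega)
    rw [h8, mul_zero]
  -- the B-part vanishes
  have hvr : ∀ (r : Fin (s + 1)) (j : Fin n), v (Sum.inr j, r) = 0 := by
    intro r
    have h2 : (fun j : Fin n => lam j * v (Sum.inr j, r)) = 0 := by
      apply moment_zero (N := b + r) _ (fun j : Fin n => ((j : ℕ) : ℝ)) hθinj
        (S := Finset.univ.filter (fun j : Fin n => ¬ ((j : ℕ) + (r : ℕ) < s + 1)))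
      · intro t ht
        have h3 := hGzero r (Nat.lt_succ_iff.1 r.2) t ht
        simp only [hG] at h3
        rw [dif_pos r.2] at h3
        exact h3
      · intro j hj
        have h3 := hS (Sum.inr j, r) (by
          simp only [Finset.mem_filter, Finset.mem_univ, true_and, hι, Sum.elim_inr]
          by_contra h4
          apply hj
          rw [Finset.mem_filter]
          exact ⟨Finset.mem_univ _, h4⟩)
        show lam j * v (Sum.inr j, r) = 0
        rw [h3, mul_zero]
      · -- cardinality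
        have h3 : (Finset.univ.filter (fun j : Fin n => ¬ ((j : ℕ) + (r : ℕ) < s + 1))).card ≤
            (Finset.range (b + r)).card := by
          apply Finset.card_le_card_of_injOn (fun j : Fin n => (j : ℕ) - (s + 1 - (r : ℕ)))
          · intro j hj
            simp only [Finset.coe_filter, Finset.mem_univ, true_and, Set.mem_ofPred_eq] at hj
            simp only [Finset.coe_range, Set.mem_Iio]
            have := j.2
            have := r.2
            omega
          · intro j hj j' hj' hjj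
            simp only [Finset.coe_filter, Finset.mem_univ, true_and, Set.mem_ofPred_eq] at hj hj'
            apply Fin.ext
            simp only at hjj
            omega
        simpa using h3
    intro j
    have h3 := congrFun h2 j
    simp only [Pi.zero_apply] at h3
    rcases mul_eq_zero.1 h3 with h4 | h4
    · exact absurd h4 (hlam j)
    · exact h4
  -- the A-part vanishes
  have hvl : ∀ (i : Fin m), (fun k : Fin (s + 1) => v (Sum.inl i, k)) = 0 := by
    intro i
    apply poly_zero _ (s + 1) (fun k hk => absurd k.2 (by omega))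
      ((Finset.univ : Finset (Fin n)).image (fun j : Fin n => α i + β i * ((j : ℕ) : ℝ)))
    · rw [Finset.card_image_of_injective]
      · simp; omega
      · intro j j' hjj
        simp only [add_right_inj] at hjj
        exact hθinj (mul_left_cancel₀ (hβ i) hjj)
    · intro z hz
      rw [Finset.mem_image] at hz
      obtain ⟨j, _, rfl⟩ := hz
      rw [hedge i j]
      apply Finset.sum_eq_zero
      intro k _
      rw [hvr k j, zero_mul]
  funext c
  obtain ⟨p, k⟩ := c
  rcases p with i | j
  · exact congrFun (hvl i) k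
  · exact hvr k j

end Pool.Agent.Cofactor
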