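import Pool.Agent.Cofactor.RankTools

set_option autoImplicit false

open Polynomial
open Classical

namespace Pool.Agent.Cofactor

variable {V : Type*} [Fintype V]

/-- The cofactor matrix, rows indexed by ordered pairs. -/
noncomputable def cmat (s : ℕ) (G : SimpleGraph V) (x y : V → ℝ) :
    Matrix (V × V) (V × Fin (s + 1)) ℝ :=
  Matrix.of fun e c =>
    if G.Adj e.1 e.2 then
      (if c.1 = e.1 then (x e.1 - x e.2) ^ (s - (c.2 : ℕ)) * (y e.1 - y e.2) ^ (c.2 : ℕ)
       else if c.1 = e.2 then
        -((x e.1 - x e.2) ^ (s - (c.2 : ℕ)) * (y e.1 - y e.2) ^ (c.2 : ℕ))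
       else 0)
    else (0 : ℝ)

/-- The value of a vector on the row of the ordered pair `(p,q)`. -/
noncomputable def rowval (s : ℕ) (x y : V → ℝ) (v : V × Fin (s + 1) → ℝ) (p q : V) : ℝ :=
  ∑ k : Fin (s + 1), (x p - x q) ^ (s - (k : ℕ)) * (y p - y q) ^ (k : ℕ) * (v (p, k) - v (q, k))

lemma mulVec_cmat (s : ℕ) (G : SimpleGraph V) (x y : V → ℝ) (v : V × Fin (s + 1) → ℝ) (p q : V) :
    (cmat s G x y).mulVec v (p, q) = if G.Adj p q then rowval s x y v p q else 0 := by
  by_cases h : G.Adj p q
  · have hpq : p ≠ q := G.ne_of_adj h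
    simp only [cmat, Matrix.mulVec, dotProduct, Matrix.of_apply, if_pos h]
    rw [Fintype.sum_prod_type]
    rw [← Finset.add_sum_erase _ _ (Finset.mem_univ p),
      ← Finset.add_sum_erase _ _ (Finset.mem_erase.2 ⟨hpq.symm, Finset.mem_univ q⟩)]
    rw [Finset.sum_eq_zero (s := (Finset.univ.erase p).erase q)]
    · rw [add_zero]
      simp only [if_true, if_neg hpq.symm]
      rw [rowval, ← Finset.sum_add_distrib]
      apply Finset.sum_congr rfl
      intro k _
      ring
    · intro r hr
      rw [Finset.mem_erase, Finset.mem_erase] at hr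
      apply Finset.sum_eq_zero
      intro k _
      simp [hr.1, hr.2.1]
  · simp only [cmat, Matrix.mulVec, dotProduct, Matrix.of_apply, if_neg h]
    simp

omit [Fintype V] in
lemma rowval_symm (s : ℕ) (x y : V → ℝ) (v : V × Fin (s + 1) → ℝ) (p q : V) :
    rowval s x y v q p = (-1) ^ (s + 1) * rowval s x y v p q := by
  unfold rowval
  rw [Finset.mul_sum]
  apply Finset.sum_congr rfl
  intro k _
  have hk : (k : ℕ) ≤ s := Nat.lt_succ_iff.1 k.2
  have h1 : x q - x p = (-1) * (x p - x q) := by ring
  have h2 : y q - y p = (-1) * (y p - y q) := by ring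
  have h3 : ((-1 : ℝ)) ^ (s + 1) = (-1) ^ (s - (k : ℕ)) * (-1) ^ (k : ℕ) * (-1) := by
    rw [← pow_add, Nat.sub_add_cancel hk, pow_succ]
  rw [h1, h2, mul_pow, mul_pow, h3]
  ring

/-- Kernel comparison. -/
lemma rank_le_of_ker {R R' C : Type*} [Fintype R] [Fintype R'] [Fintype C] (M : Matrix R C ℝ)
    (M' : Matrix R' C ℝ) (h : ∀ v : C → ℝ, M'.mulVec v = 0 → M.mulVec v = 0) :
    M.rank ≤ M'.rank := by
  have h1 := LinearMap.finrank_range_add_finrank_ker M.mulVecLin
  have h2 := LinearMap.finrank_range_add_finrank_ker M'.mulVecLin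
  have h3 : LinearMap.ker M'.mulVecLin ≤ LinearMap.ker M.mulVecLin := by
    intro v hv
    rw [LinearMap.mem_ker] at hv ⊢
    exact h v hv
  have h4 := Submodule.finrank_mono h3
  unfold Matrix.rank
  omega

/-- Upper bound for the bipartite graph: at most `m * n`. -/
lemma rank_bip_le (s m n : ℕ) (x y : (Fin m ⊕ Fin n) → ℝ) :
    (cmat s (completeBipartiteGraph (Fin m) (Fin n)) x y).rank ≤ m * n := by
  set M' : Matrix (Fin m × Fin n) ((Fin m ⊕ Fin n) × Fin (s + 1)) ℝ :=
    (cmat s (completeBipartiteGraph (Fin m) (Fin n)) x y).submatrix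
      (fun p => (Sum.inl p.1, Sum.inr p.2)) id with hM'
  have h1 : (cmat s (completeBipartiteGraph (Fin m) (Fin n)) x y).rank ≤ M'.rank := by
    apply rank_le_of_ker
    intro v hv
    have h2 : ∀ i j, rowval s x y v (Sum.inl i) (Sum.inr j) = 0 := by
      intro i j
      have h3 := congrFun hv (i, j)
      have h4 : M'.mulVec v (i, j) =
          (cmat s (completeBipartiteGraph (Fin m) (Fin n)) x y).mulVec v (Sum.inl i, Sum.inr j) := rfl
      rw [h4, mulVec_cmat, if_pos (by simp [completeBipartiteGraph])] at h3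
      exact h3
    funext e
    obtain ⟨p, q⟩ := e
    rw [mulVec_cmat]
    rcases p with i | j <;> rcases q with i' | j'
    · simp [completeBipartiteGraph]
    · rw [h2]; simp
    · rw [rowval_symm, h2]; simp
    · simp [completeBipartiteGraph]
  refine h1.trans ?_
  have := Matrix.rank_le_card_height M'
  simpa using this

/-- Lower bound for the complete graph at a parabola configuration. -/
lemma rank_top_ge (s : ℕ) (ι : V → ℕ) (hι : Function.Injective ι)
    (hrange : ∀ k < s + 1, ∃ p, ι p = k) :
    (s + 1) * Fintype.card V ≤ (cmat s ⊤ (fun p => (ι p : ℝ)) (fun p => (ι p : ℝ) ^ 2)).rank +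
      (s + 2).choose 2 := by
  have h1 := rank_lower (cmat s ⊤ (fun p : V => (ι p : ℝ)) (fun p => (ι p : ℝ) ^ 2))
    (Finset.univ.filter (fun c : V × Fin (s + 1) => ι c.1 ≤ (c.2 : ℕ))) ?_
  · have h2 := card_S' s ι hι
    rw [Fintype.card_prod, Fintype.card_fin] at h1
    rw [mul_comm (s + 1)]
    omega
  intro v hv hS
  have hrow : ∀ p q : V, p ≠ q → ∑ k : Fin (s + 1), (v (p, k) - v (q, k)) *
      ((ι p : ℝ) + ι q) ^ (k : ℕ) = 0 := by
    intro p q hpq
    have h2 := congrFun hv (p, q)
    rw [mulVec_cmat, if_pos (by simpa using hpq)] at h2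
    have h3 : (ι p : ℝ) - ι q ≠ 0 := by
      rw [sub_ne_zero]
      intro h; exact hpq (hι (by exact_mod_cast h))
    have h4 : rowval s (fun p => (ι p : ℝ)) (fun p => (ι p : ℝ) ^ 2) v p q =
        ((ι p : ℝ) - ι q) ^ s * ∑ k : Fin (s + 1), (v (p, k) - v (q, k)) *
      ((ι p : ℝ) + ι q) ^ (k : ℕ) := by
      unfold rowval
      rw [Finset.mul_sum]
      apply Finset.sum_congr rfl
      intro k _
      have hk : (k : ℕ) ≤ s := Nat.lt_succ_iff.1 k.2
      have h5 : (ι p : ℝ) ^ 2 - (ι q : ℝ) ^ 2 = ((ι p : ℝ) - ι q) * ((ι p : ℝ) + ι q) := by ring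
      rw [h5, mul_pow]
      have h6 : ((ι p : ℝ) - ι q) ^ s = ((ι p : ℝ) - ι q) ^ (s - (k : ℕ)) * ((ι p : ℝ) - ι q) ^ (k : ℕ) := by
        rw [← pow_add, Nat.sub_add_cancel hk]
      rw [h6]; ring
    rw [h4] at h2
    rcases mul_eq_zero.1 h2 with h5 | h5
    · exact absurd h5 (pow_ne_zero _ h3)
    · exact h5
  have key : ∀ N : ℕ, ∀ p : V, ι p = N → ∀ k : Fin (s + 1), v (p, k) = 0 := by
    intro N
    induction N using Nat.strong_induction_on with
    | _ N ih =>
      intro p hp
      -- previous vertices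
      set d := min N (s + 1) with hd
      have h2 : (fun k : Fin (s + 1) => v (p, k)) = 0 := by
        apply poly_zero (fun k : Fin (s + 1) => v (p, k)) d
          (T := (Finset.range d).image (fun j : ℕ => ((N : ℝ) + (j : ℝ))))
        · intro k hk
          apply hS
          simp only [Finset.mem_filter, Finset.mem_univ, true_and]
          rw [hp]
          have hks := k.2
          rcases Nat.le_total N (s + 1) with h | h
          · rw [hd, min_eq_left h] at hk; exact hk
          · rw [hd, min_eq_right h] at hk; omega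
        · rw [Finset.card_image_of_injective]
          · simp
          · intro a b hab
            simpa using hab
        · intro z hz
          rw [Finset.mem_image] at hz
          obtain ⟨j, hj, rfl⟩ := hz
          rw [Finset.mem_range] at hj
          obtain ⟨q, hq⟩ := hrange j (by omega)
          have h3 := ih j (by omega) q hq
          have h4 := hrow p q (by
            intro h
            rw [h] at hp
            omega)
          rw [← h4]
          apply Finset.sum_congr rfl
          intro k _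
          rw [h3 k, hp, hq, sub_zero]
      intro k
      exact congrFun h2 k
  funext c
  exact key _ c.1 rfl c.2

end Pool.Agent.Cofactor
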