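import Pool.Agent.Cofactor.KeyInj
import Pool.Agent.Cofactor.Cmat

set_option autoImplicit false

open Polynomial
open Classical

namespace Pool.Agent.Cofactor

/-- The rows of the edges of `K_{m,n}` are independent as soon as a stress vanishes. -/
lemma rank_ge_of_stress (s m n : ℕ) (x y : (Fin m ⊕ Fin n) → ℝ)
    (h : ∀ g : Fin m → Fin n → ℝ,
      (∀ (j : Fin n) (k : Fin (s + 1)), ∑ i, g i j *
        ((x (Sum.inl i) - x (Sum.inr j)) ^ (s - (k : ℕ)) * (y (Sum.inl i) - y (Sum.inr j)) ^ (k : ℕ)) = 0) →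
      (∀ (i : Fin m) (k : Fin (s + 1)), ∑ j, g i j *
        ((x (Sum.inl i) - x (Sum.inr j)) ^ (s - (k : ℕ)) * (y (Sum.inl i) - y (Sum.inr j)) ^ (k : ℕ)) = 0) →
      ∀ i j, g i j = 0) :
    m * n ≤ (cmat s (completeBipartiteGraph (Fin m) (Fin n)) x y).rank := by
  set f : Fin m × Fin n → (Fin m ⊕ Fin n) × (Fin m ⊕ Fin n) := fun p => (Sum.inl p.1, Sum.inr p.2) with hf
  set M' : Matrix (Fin m × Fin n) ((Fin m ⊕ Fin n) × Fin (s + 1)) ℝ :=
    (cmat s (completeBipartiteGraph (Fin m) (Fin n)) x y).submatrix f id with hM'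
  have hli : LinearIndependent ℝ M'.row := by
    rw [Fintype.linearIndependent_iff]
    intro g hg
    have hB : ∀ (j : Fin n) (k : Fin (s + 1)), ∑ i, g (i, j) *
        ((x (Sum.inl i) - x (Sum.inr j)) ^ (s - (k : ℕ)) *
          (y (Sum.inl i) - y (Sum.inr j)) ^ (k : ℕ)) = 0 := by
      intro j k
      have h1 := congrFun hg (Sum.inr j, k)
      simp only [Finset.sum_apply, Pi.smul_apply, smul_eq_mul, Pi.zero_apply] at h1
      rw [Fintype.sum_prod_type] at h1
      have h2 : ∀ i : Fin m, ∑ j' : Fin n, g (i, j') * M'.row (i, j') (Sum.inr j, k) =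
          -(g (i, j) * ((x (Sum.inl i) - x (Sum.inr j)) ^ (s - (k : ℕ)) *
          (y (Sum.inl i) - y (Sum.inr j)) ^ (k : ℕ))) := by
        intro i
        rw [Finset.sum_eq_single j]
        · simp [hM', hf, cmat, Matrix.row, completeBipartiteGraph]
        · intro j' _ hj'
          have h3 : j ≠ j' := fun h => hj' h.symm
          simp [hM', hf, cmat, Matrix.row, completeBipartiteGraph, h3]
        · simp
      simp only [h2, Finset.sum_neg_distrib, neg_eq_zero] at h1
      exact h1
    have hA : ∀ (i : Fin m) (k : Fin (s + 1)), ∑ j, g (i, j) *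
        ((x (Sum.inl i) - x (Sum.inr j)) ^ (s - (k : ℕ)) *
          (y (Sum.inl i) - y (Sum.inr j)) ^ (k : ℕ)) = 0 := by
      intro i k
      have h1 := congrFun hg (Sum.inl i, k)
      simp only [Finset.sum_apply, Pi.smul_apply, smul_eq_mul, Pi.zero_apply] at h1
      rw [Fintype.sum_prod_type, Finset.sum_eq_single i] at h1
      · rw [← h1]
        apply Finset.sum_congr rfl
        intro j _
        simp [hM', hf, cmat, Matrix.row, completeBipartiteGraph]
      · intro i' _ hi'
        have h3 : i ≠ i' := fun h => hi' h.symm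
        apply Finset.sum_eq_zero
        intro j _
        simp [hM', hf, cmat, Matrix.row, completeBipartiteGraph, h3]
      · simp
    rintro ⟨i, j⟩
    exact h (fun i j => g (i, j)) hB hA i j
  have h1 : M'.rank = Fintype.card (Fin m × Fin n) := LinearIndependent.rank_matrix hli
  have h2 : M'.rank ≤ (cmat s (completeBipartiteGraph (Fin m) (Fin n)) x y).rank :=
    Matrix.rank_submatrix_le _ _ _
  rw [h1, Fintype.card_prod, Fintype.card_fin, Fintype.card_fin] at h2
  exact h2

lemma rank_bip_small_left (s m n : ℕ) (hm : m ≤ s + 1) :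
    ∃ x y : (Fin m ⊕ Fin n) → ℝ,
      m * n ≤ (cmat s (completeBipartiteGraph (Fin m) (Fin n)) x y).rank := by
  refine ⟨Sum.elim (fun _ => 1) (fun _ => 0), Sum.elim (fun i => ((i : ℕ) : ℝ)) (fun _ => 0), ?_⟩
  apply rank_ge_of_stress
  intro g hB _ i j
  have hinj : Function.Injective (fun i : Fin m => ((i : ℕ) : ℝ)) := by
    intro a b hab
    have hab' : ((a : ℕ) : ℝ) = ((b : ℕ) : ℝ) := hab
    exact Fin.ext (by exact_mod_cast hab')
  have h1 := moment_zero (N := s + 1) (fun i => g i j) (fun i : Fin m => ((i : ℕ) : ℝ)) hinj (by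
    intro t ht
    have h2 := hB j ⟨t, ht⟩
    simpa using h2) Finset.univ (fun j hj => absurd (Finset.mem_univ _) hj) (by simpa using hm)
  exact congrFun h1 i

lemma rank_bip_small_right (s m n : ℕ) (hn : n ≤ s + 1) :
    ∃ x y : (Fin m ⊕ Fin n) → ℝ,
      m * n ≤ (cmat s (completeBipartiteGraph (Fin m) (Fin n)) x y).rank := by
  refine ⟨Sum.elim (fun _ => 1) (fun _ => 0), Sum.elim (fun _ => 0) (fun j => -((j : ℕ) : ℝ)), ?_⟩
  apply rank_ge_of_stress
  intro g _ hA i j
  have hinj : Function.Injective (fun j : Fin n => ((j : ℕ) : ℝ)) := by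
    intro a b hab
    have hab' : ((a : ℕ) : ℝ) = ((b : ℕ) : ℝ) := hab
    exact Fin.ext (by exact_mod_cast hab')
  have h1 := moment_zero (N := s + 1) (fun j => g i j) (fun j : Fin n => ((j : ℕ) : ℝ)) hinj (by
    intro t ht
    have h2 := hA i ⟨t, ht⟩
    simpa using h2) Finset.univ (fun j hj => absurd (Finset.mem_univ _) hj) (by simpa using hn)
  exact congrFun h1 j

/-- Functions on `n = b + s + 1` nodes orthogonal to the polynomials of degree at most `s`. -/
lemma exists_poly_weight (s b n : ℕ) (hn : n = b + s + 1) (hb : 0 < b) (lam : Fin n → ℝ)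
    (hlam : ∀ j, lam j ≠ 0) (hmom : ∀ t < n - 1, ∑ j, lam j * ((j : ℕ) : ℝ) ^ t = 0)
    (a : Fin n → ℝ) (ha : ∀ t < s + 1, ∑ j, a j * ((j : ℕ) : ℝ) ^ t = 0) :
    ∃ P : ℝ[X], P.natDegree < b ∧ ∀ j, a j = lam j * P.eval ((j : ℕ) : ℝ) := by
  have hθinj : Function.Injective (fun j : Fin n => ((j : ℕ) : ℝ)) := by
    intro j j' hj
    have hj' : ((j : ℕ) : ℝ) = ((j' : ℕ) : ℝ) := hj
    exact Fin.ext (by exact_mod_cast hj')
  set S : Finset (Fin n) := Finset.univ.filter (fun j => (j : ℕ) < b) with hS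
  have hScard : S.card = b := by
    have h1 : S.card = (Finset.range b).card := by
      apply Finset.card_bij (fun (j : Fin n) _ => (j : ℕ))
      · intro j hj
        simp only [hS, Finset.mem_filter, Finset.mem_univ, true_and] at hj
        exact Finset.mem_range.2 hj
      · intro j _ j' _ h
        exact Fin.ext h
      · intro k hk
        rw [Finset.mem_range] at hk
        exact ⟨⟨k, by omega⟩, by simp [hS, hk], rfl⟩
    simpa using h1
  set P : ℝ[X] := Lagrange.interpolate S (fun j : Fin n => ((j : ℕ) : ℝ)) (fun j => a j / lam j) with hP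
  have hdeg : P.degree < S.card := Lagrange.degree_interpolate_lt _ (hθinj.injOn)
  have hnat : P.natDegree < b := by
    rw [hScard] at hdeg
    by_cases hP0 : P = 0
    · rw [hP0]; simpa using hb
    · exact (natDegree_lt_iff_degree_lt hP0).2 hdeg
  have hnode : ∀ j ∈ S, a j = lam j * P.eval ((j : ℕ) : ℝ) := by
    intro j hj
    have h1 : P.eval ((j : ℕ) : ℝ) = a j / lam j :=
      Lagrange.eval_interpolate_at_node _ (hθinj.injOn) hj
    rw [h1]
    field_simp [hlam j]
  have h2 := moment_zero (N := s + 1) (fun j => a j - lam j * P.eval ((j : ℕ) : ℝ))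
    (fun j : Fin n => ((j : ℕ) : ℝ)) hθinj (by
      intro t ht
      have h3 := moment_poly lam (fun j : Fin n => ((j : ℕ) : ℝ)) hmom (P * X ^ t) (by
        have h4 : (P * X ^ t).natDegree ≤ P.natDegree + t := by
          refine natDegree_mul_le.trans ?_
          rw [natDegree_X_pow]
        omega)
      have h5 : ∀ j : Fin n, (a j - lam j * P.eval ((j : ℕ) : ℝ)) * ((j : ℕ) : ℝ) ^ t =
          a j * ((j : ℕ) : ℝ) ^ t - lam j * (P * X ^ t).eval ((j : ℕ) : ℝ) := by
        intro j
        simp only [eval_mul, eval_pow, eval_X]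
        ring
      simp only [h5, Finset.sum_sub_distrib]
      rw [ha t ht, h3, sub_zero])
    (Finset.univ \ S) (by
      intro j hj
      have hjS : j ∈ S := by
        by_contra h
        exact hj (Finset.mem_sdiff.2 ⟨Finset.mem_univ _, h⟩)
      show a j - lam j * P.eval ((j : ℕ) : ℝ) = 0
      rw [← hnode j hjS, sub_self]) (by
      rw [Finset.card_sdiff_of_subset (Finset.subset_univ _), hScard, Finset.card_univ, Fintype.card_fin]
      omega)
  refine ⟨P, hnat, ?_⟩
  intro j
  have h3 := congrFun h2 j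
  simp only [Pi.zero_apply] at h3
  linarith

/-- Independence of `K_{m,n}` at a suitable configuration. -/
lemma rank_bip_indep (s m n : ℕ) (hm : s + 2 ≤ m) (hn : s + 2 ≤ n)
    (h : (m - s - 1) * (n - s - 1) ≤ (s + 1).choose 2) :
    ∃ x y : (Fin m ⊕ Fin n) → ℝ,
      m * n ≤ (cmat s (completeBipartiteGraph (Fin m) (Fin n)) x y).rank := by
  obtain ⟨b, hb⟩ : ∃ b, n = b + s + 1 := ⟨n - s - 1, by omega⟩
  obtain ⟨a, ha⟩ : ∃ a, m = a + s + 1 := ⟨m - s - 1, by omega⟩
  have hb0 : 0 < b := by omega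
  have hkey : m * b ≤ (s + 1) * b + (s + 1).choose 2 := by
    have h1 : m - s - 1 = a := by omega
    have h2 : n - s - 1 = b := by omega
    rw [h1, h2] at h
    rw [ha]
    nlinarith
  obtain ⟨α, β, hβ, hK⟩ := key_inj s m b hb0 hkey
  have hθinj : Function.Injective (fun j : Fin n => ((j : ℕ) : ℝ)) := by
    intro j j' hj
    have hj' : ((j : ℕ) : ℝ) = ((j' : ℕ) : ℝ) := hj
    exact Fin.ext (by exact_mod_cast hj')
  obtain ⟨lam, hlam, hmom⟩ := exists_weights (n := n) (by omega) (fun j : Fin n => ((j : ℕ) : ℝ))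
    hθinj
  refine ⟨Sum.elim (fun i => -(β i)⁻¹) (fun _ => 0),
    Sum.elim (fun i => -(α i) / (β i)) (fun j => ((j : ℕ) : ℝ)), ?_⟩
  apply rank_ge_of_stress
  intro g hB hA
  -- rescaled stress
  have hD : ∀ (i : Fin m) (j : Fin n) (k : Fin (s + 1)),
      ((Sum.elim (fun i : Fin m => -(β i)⁻¹) (fun _ : Fin n => (0 : ℝ)) (Sum.inl i) -
        Sum.elim (fun i : Fin m => -(β i)⁻¹) (fun _ : Fin n => (0 : ℝ)) (Sum.inr j)) ^ (s - (k : ℕ)) *
       (Sum.elim (fun i : Fin m => -(α i) / (β i)) (fun j : Fin n => ((j : ℕ) : ℝ)) (Sum.inl i) -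
        Sum.elim (fun i : Fin m => -(α i) / (β i)) (fun j : Fin n => ((j : ℕ) : ℝ)) (Sum.inr j)) ^ (k : ℕ))
      = (-(β i)⁻¹) ^ s * (α i + β i * ((j : ℕ) : ℝ)) ^ (k : ℕ) := by
    intro i j k
    have hk : (k : ℕ) ≤ s := Nat.lt_succ_iff.1 k.2
    have hβi := hβ i
    simp only [Sum.elim_inl, Sum.elim_inr, sub_zero]
    have h6 : -(α i) / (β i) - ((j : ℕ) : ℝ) = -(β i)⁻¹ * (α i + β i * ((j : ℕ) : ℝ)) := by
      field_simp
      ring
    rw [h6, mul_pow]
    have h7 : (-(β i)⁻¹) ^ s = (-(β i)⁻¹) ^ (s - (k : ℕ)) * (-(β i)⁻¹) ^ (k : ℕ) := by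
      rw [← pow_add, Nat.sub_add_cancel hk]
    rw [h7]; ring
  set w : Fin m → Fin n → ℝ := fun i j => g i j * (-(β i)⁻¹) ^ s with hw
  have hA' : ∀ (i : Fin m) (k : Fin (s + 1)), ∑ j, w i j * (α i + β i * ((j : ℕ) : ℝ)) ^ (k : ℕ) = 0 := by
    intro i k
    have h1 := hA i k
    rw [← h1]
    apply Finset.sum_congr rfl
    intro j _
    rw [hD i j k]; simp only [hw]; ring
  have hB' : ∀ (j : Fin n) (k : Fin (s + 1)), ∑ i, w i j * (α i + β i * ((j : ℕ) : ℝ)) ^ (k : ℕ) = 0 := by
    intro j k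
    have h1 := hB j k
    rw [← h1]
    apply Finset.sum_congr rfl
    intro i _
    rw [hD i j k]; simp only [hw]; ring
  -- moments of the stress at a vertex of the large side
  have hmomw : ∀ (i : Fin m), ∀ t < s + 1, ∑ j, w i j * ((j : ℕ) : ℝ) ^ t = 0 := by
    intro i t ht
    have h1 := moment_poly (N := s + 1) (fun j => w i j) (fun j : Fin n => α i + β i * ((j : ℕ) : ℝ))
      (by
        intro t ht
        exact hA' i ⟨t, ht⟩) ((C (β i)⁻¹ * (X - C (α i))) ^ t) (by
        refine lt_of_le_of_lt (natDegree_pow_le) ?_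
        have h2 : (C (β i)⁻¹ * (X - C (α i))).natDegree ≤ 1 := by compute_degree
        nlinarith)
    rw [← h1]
    apply Finset.sum_congr rfl
    intro j _
    have hβi := hβ i
    simp only [eval_pow, eval_mul, eval_C, eval_sub, eval_X]
    congr 2
    field_simp
    ring
  choose P hPdeg hPw using fun i => exists_poly_weight s b n hb hb0 lam hlam hmom (w i) (hmomw i)
  -- the products vanish identically
  have hQ : ∀ r ≤ s, ∑ i : Fin m, P i * (C (α i) + C (β i) * X) ^ r = 0 := by
    intro r hr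
    have hL : ∀ i : Fin m, (C (α i) + C (β i) * X : ℝ[X]).natDegree ≤ 1 := by
      intro i; compute_degree
    apply Polynomial.eq_zero_of_natDegree_lt_card_of_eval_eq_zero
      (∑ i : Fin m, P i * (C (α i) + C (β i) * X) ^ r) (f := fun j : Fin n => ((j : ℕ) : ℝ)) hθinj
    · intro j
      have h1 := hB' j ⟨r, Nat.lt_succ_iff.2 hr⟩
      simp only [hPw] at h1
      have h2 : lam j * (∑ i : Fin m, P i * (C (α i) + C (β i) * X) ^ r).eval ((j : ℕ) : ℝ) = 0 := by
        rw [← h1, eval_finsetSum, Finset.mul_sum]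
        apply Finset.sum_congr rfl
        intro i _
        simp only [eval_mul, eval_pow, eval_add, eval_C, eval_X]
        ring
      rcases mul_eq_zero.1 h2 with h3 | h3
      · exact absurd h3 (hlam j)
      · exact h3
    · rw [Fintype.card_fin]
      refine lt_of_le_of_lt (natDegree_sum_le_of_forall_le (n := b - 1 + r) _ _ ?_) (by omega)
      intro i _
      refine natDegree_mul_le.trans ?_
      have h3 : ((C (α i) + C (β i) * X : ℝ[X]) ^ r).natDegree ≤ r := by
        refine natDegree_pow_le.trans ?_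
        have := hL i
        nlinarith
      have h4 := hPdeg i
      omega
  have hq := hK (fun i c => if hi : i < m then (P ⟨i, hi⟩).coeff c else 0) (by
    intro r hr t ht
    have h1 := congrArg (fun p => coeff p t) (hQ r hr)
    simp only [finsetSum_coeff, coeff_zero] at h1
    rw [Finset.sum_range, ← h1]
    apply Finset.sum_congr rfl
    intro i _
    have h2 : P i = ∑ c ∈ Finset.range b, C ((P i).coeff c) * X ^ c := by
      conv_lhs => rw [(P i).as_sum_range' b (hPdeg i)]
      simp only [C_mul_X_pow_eq_monomial]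
    conv_rhs => rw [h2, Finset.sum_mul, finsetSum_coeff]
    apply Finset.sum_congr rfl
    intro c _
    rw [dif_pos i.2, mul_assoc, coeff_C_mul])
  intro i j
  have hP0 : P i = 0 := by
    ext c
    rw [coeff_zero]
    by_cases hc : c < b
    · have h1 := hq i i.2 c hc
      rw [dif_pos i.2] at h1
      exact h1
    · exact coeff_eq_zero_of_natDegree_lt (lt_of_lt_of_le (hPdeg i) (by omega))
  have h1 := hPw i j
  rw [hP0, eval_zero, mul_zero] at h1
  simp only [hw] at h1
  rcases mul_eq_zero.1 h1 with h2 | h2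
  · exact h2
  · exfalso
    have : (-(β i)⁻¹) ≠ 0 := neg_ne_zero.2 (inv_ne_zero (hβ i))
    exact pow_ne_zero _ this h2

end Pool.Agent.Cofactor
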