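import Mathlib

set_option autoImplicit false

open MvPolynomial Cardinal

namespace Pool.Agent.Cofactor

/-- The Gram determinant of independent rows. -/
lemma gram_ne_zero {κ C : Type*} [Fintype κ] [DecidableEq κ] [Fintype C] (B : Matrix κ C ℝ)
    (h : LinearIndependent ℝ B.row) : (B * B.transpose).det ≠ 0 := by
  have h0 : B.rank = Fintype.card κ := LinearIndependent.rank_matrix h
  have h2 : (B * B.transpose).rank = Fintype.card κ := by
    rw [Matrix.rank_self_mul_transpose, h0]
  have h3 : LinearIndependent ℝ (B * B.transpose).row := by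
    rw [linearIndependent_iff_card_eq_finrank_span, ← h2, Matrix.rank_eq_finrank_span_row]
    rfl
  have h4 := Matrix.linearIndependent_rows_iff_isUnit.1 h3
  exact ((Matrix.isUnit_iff_isUnit_det _).1 h4).ne_zero

lemma rank_of_gram {κ C : Type*} [Fintype κ] [DecidableEq κ] [Fintype C] (B : Matrix κ C ℝ)
    (h : (B * B.transpose).det ≠ 0) : B.rank = Fintype.card κ := by
  have h4 := Matrix.rank_of_det_ne_zero h
  rw [Matrix.rank_self_mul_transpose] at h4
  exact h4

lemma gram_eval {σ κ C : Type*} [Fintype κ] [DecidableEq κ] [Fintype C]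
    (B : Matrix κ C (MvPolynomial σ ℚ)) (z : σ → ℝ) :
    (aeval z : MvPolynomial σ ℚ →ₐ[ℚ] ℝ) (B * B.transpose).det =
      ((B.map (aeval z : MvPolynomial σ ℚ →ₐ[ℚ] ℝ)) *
        (B.map (aeval z : MvPolynomial σ ℚ →ₐ[ℚ] ℝ)).transpose).det := by
  rw [AlgHom.map_det, AlgHom.mapMatrix_apply, Matrix.map_mul, Matrix.transpose_map]

/-- Maximal independent rows of a real matrix. -/
lemma exists_rows {R C : Type*} [Fintype R] [Fintype C] (M : Matrix R C ℝ) :
    ∃ (n : ℕ) (a : Fin n → R), M.rank = n ∧ LinearIndependent ℝ (M.submatrix a id).row := by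
  classical
  obtain ⟨κ, a, hainj, hspan, hli⟩ := exists_linearIndependent' ℝ M.row
  have : Finite κ := Finite.of_injective a hainj
  have : Fintype κ := Fintype.ofFinite κ
  have hrank : M.rank = Fintype.card κ := by
    rw [Matrix.rank_eq_finrank_span_row, ← hspan, finrank_span_eq_card hli]
  refine ⟨Fintype.card κ, fun i => a ((Fintype.equivFin κ).symm i), hrank, ?_⟩
  exact hli.comp _ (Fintype.equivFin κ).symm.injective

/-- The rank of a matrix of rational polynomials is largest at a generic point. -/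
lemma rank_generic {σ R C : Type*} [Fintype R] [Fintype C] (A : Matrix R C (MvPolynomial σ ℚ))
    (p q : σ → ℝ) (hp : AlgebraicIndependent ℚ p) (Ap Aq : Matrix R C ℝ)
    (hAp : Ap = A.map (aeval p : MvPolynomial σ ℚ →ₐ[ℚ] ℝ))
    (hAq : Aq = A.map (aeval q : MvPolynomial σ ℚ →ₐ[ℚ] ℝ)) : Aq.rank ≤ Ap.rank := by
  obtain ⟨n, a, hrank, hli⟩ := exists_rows Aq
  obtain ⟨B, hB⟩ : ∃ B, B = A.submatrix a id := ⟨_, rfl⟩
  have hBq : Aq.submatrix a id = B.map (aeval q : MvPolynomial σ ℚ →ₐ[ℚ] ℝ) := by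
    rw [hB, hAq, Matrix.submatrix_map]
  have hBp : Ap.submatrix a id = B.map (aeval p : MvPolynomial σ ℚ →ₐ[ℚ] ℝ) := by
    rw [hB, hAp, Matrix.submatrix_map]
  have h1 := gram_ne_zero (Aq.submatrix a id) hli
  have h3 : (aeval q : MvPolynomial σ ℚ →ₐ[ℚ] ℝ) (B * B.transpose).det ≠ 0 := by
    rw [gram_eval, ← hBq]; exact h1
  have h4 : (aeval p : MvPolynomial σ ℚ →ₐ[ℚ] ℝ) (B * B.transpose).det ≠ 0 := by
    intro h
    have h5 := (algebraicIndependent_iff.1 hp) _ h
    rw [h5, map_zero] at h3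
    exact h3 rfl
  rw [gram_eval, ← hBp] at h4
  have h5 := rank_of_gram _ h4
  rw [hrank]
  have h6 := Matrix.rank_submatrix_le Ap a id
  rw [h5, Fintype.card_fin] at h6
  exact h6

/-- There are as many algebraically independent real numbers as we like. -/
lemma exists_generic (σ : Type) [Finite σ] : ∃ p : σ → ℝ, AlgebraicIndependent ℚ p := by
  obtain ⟨ι, x, hx⟩ := exists_isTranscendenceBasis' ℚ ℝ
  have hinf : Infinite ι := by
    by_contra hfin
    rw [not_infinite_iff_finite] at hfin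
    have h1 : #(Algebra.adjoin ℚ (Set.range x)) ≤ ℵ₀ := by
      have h2 : Countable (MvPolynomial ι ℚ) := by
        rw [← Cardinal.mk_le_aleph0_iff]
        refine MvPolynomial.cardinalMk_le_max_lift.trans ?_
        simp
      have h3 : Countable (Algebra.adjoin ℚ (Set.range x)) :=
        Countable.of_equiv _ hx.1.aevalEquiv.toEquiv
      exact Cardinal.mk_le_aleph0_iff.2 h3
    have h2 := hx.isAlgebraic
    have h3 := Algebra.IsAlgebraic.cardinalMk_le_max (Algebra.adjoin ℚ (Set.range x)) ℝ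
    have h4 : #ℝ ≤ ℵ₀ := h3.trans (max_le h1 le_rfl)
    rw [Cardinal.mk_real] at h4
    exact absurd h4 (not_le.2 Cardinal.aleph0_lt_continuum)
  obtain ⟨f⟩ : Nonempty (σ ↪ ι) := by
    have := Fintype.ofFinite σ
    obtain ⟨s, hs⟩ := Infinite.exists_subset_card_eq ι (Fintype.card σ)
    have e : σ ≃ s := Fintype.equivOfCardEq (by simp [hs])
    exact ⟨e.toEmbedding.trans (Function.Embedding.subtype _)⟩
  exact ⟨x ∘ f, hx.1.comp f f.injective⟩

end Pool.Agent.Cofactor
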