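import Pool.Agent.Cofactor.KeyLemma

set_option autoImplicit false

open Polynomial

namespace Pool.Agent.Cofactor

lemma sq_index (b : ℕ) (hb : 0 < b) (k : ℕ) :
    k = (sq b k).1 * b + (sq b k).1.choose 2 + (sq b k).2 := by
  induction k with
  | zero => simp [sq]
  | succ k ih =>
    have hlt := sq_lt b hb k
    simp only [sq, nxt]
    split_ifs with h
    · simp only; omega
    · simp only
      have h2 : ((sq b k).1 + 1).choose 2 = (sq b k).1.choose 2 + (sq b k).1 := by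
        rw [Nat.choose_succ_succ' _ 1]; simp; omega
      rw [h2, add_mul]; omega

lemma sq_fst_le_of_lt (b : ℕ) (hb : 0 < b) (s k : ℕ)
    (hk : k < (s + 1) * b + (s + 1).choose 2) : (sq b k).1 ≤ s := by
  by_contra h11
  push Not at h11
  have h13 := sq_index b hb k
  have h14 : (s + 1) * b ≤ (sq b k).1 * b := Nat.mul_le_mul_right b h11
  have h15 : (s + 1).choose 2 ≤ (sq b k).1.choose 2 := Nat.choose_le_choose 2 h11
  omega

/-- The injective half: few pieces give independent products. -/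
lemma key_inj (s m b : ℕ) (hb : 0 < b) (hm : m * b ≤ (s + 1) * b + (s + 1).choose 2) :
    ∃ α β : ℕ → ℝ, (∀ i, β i ≠ 0) ∧ ∀ q : ℕ → ℕ → ℝ,
      (∀ r ≤ s, ∀ t < b + r, ∑ i ∈ Finset.range m, ∑ c ∈ Finset.range b,
        q i c * ((X : ℝ[X]) ^ c * (C (α i) + C (β i) * X) ^ r).coeff t = 0) →
      ∀ i < m, ∀ c < b, q i c = 0 := by
  obtain ⟨τ, hτ, W, hW⟩ := exists_tau m b hb
  refine ⟨fun i => τ ^ (2 * i * W), fun i => τ ^ (2 * i * W) * τ ^ (2 * i), ?_, ?_⟩
  · intro i; positivity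
  intro q hq
  -- the square system
  let L : (Fin (m * b) → ℝ) →ₗ[ℝ] (Fin m × Fin b → ℝ) :=
    { toFun := fun G p => ∑ k : Fin (m * b), G k * (uvec b k p.2 * τ ^ (2 * (p.1 : ℕ) * expo b W k))
      map_add' := by
        intro G G'; funext p
        simp [add_mul, Finset.sum_add_distrib]
      map_smul' := by
        intro a G; funext p
        simp [mul_assoc, Finset.mul_sum] }
  have hLinj : Function.Injective L := by
    rw [injective_iff_map_eq_zero]
    intro G hG
    set G' : ℕ → ℝ := fun k => if hk : k < m * b then G ⟨k, hk⟩ else 0 with hG'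
    have h1 := hW G' (by
      intro i hi c
      have h2 := congrFun hG (⟨i, hi⟩, c)
      have h3 : ∑ k : Fin (m * b), G k * (uvec b k c * τ ^ (2 * i * expo b W k)) = 0 := h2
      rw [Finset.sum_range, ← h3]
      apply Finset.sum_congr rfl
      intro k _
      have h4 : G' (k : ℕ) = G k := by simp [hG']
      rw [h4])
    funext k
    have h2 := h1 k k.2
    simpa [hG'] using h2
  have hLsurj : Function.Surjective L := by
    rw [← LinearMap.injective_iff_surjective_of_finrank_eq_finrank]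
    · exact hLinj
    · simp
  -- the coefficients
  set a : Fin m × Fin b → ℝ := fun p => q p.1 p.2 * ((τ ^ (2 * (p.1 : ℕ))) ^ (p.2 : ℕ))⁻¹ with ha
  have h1 : ∀ k : Fin (m * b), ∑ p : Fin m × Fin b,
      a p * (uvec b k p.2 * τ ^ (2 * (p.1 : ℕ) * expo b W k)) = 0 := by
    intro k
    have hk1 := sq_fst_le_of_lt b hb s k (lt_of_lt_of_le k.2 hm)
    have hk2 := sq_lt b hb k
    have h2 := hq (sq b k).1 hk1 (sq b k).2 hk2
    rw [Finset.sum_range] at h2
    simp only [Finset.sum_range] at h2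
    rw [← h2, Fintype.sum_prod_type]
    apply Finset.sum_congr rfl
    intro i _
    apply Finset.sum_congr rfl
    intro c _
    have h3 := coeff_lin (τ ^ (2 * (i : ℕ) * W)) (τ ^ (2 * (i : ℕ))) c (sq b k).1 (sq b k).2
    have h4 : τ ^ (2 * (i : ℕ) * expo b W k) =
        (τ ^ (2 * (i : ℕ) * W)) ^ (sq b k).1 * (τ ^ (2 * (i : ℕ))) ^ (sq b k).2 := by
      rw [← pow_mul, ← pow_mul, ← pow_add, expo]; congr 1; ring
    have h5 : (τ ^ (2 * (i : ℕ))) ^ (c : ℕ) ≠ 0 := by positivity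
    simp only [ha]
    rw [h4]
    unfold uvec
    have h6 : ((X : ℝ[X]) ^ (c : ℕ) * (C (τ ^ (2 * (i : ℕ) * W)) +
        C (τ ^ (2 * (i : ℕ) * W) * τ ^ (2 * (i : ℕ))) * X) ^ (sq b k).1).coeff (sq b k).2 =
        ((τ ^ (2 * (i : ℕ))) ^ (c : ℕ))⁻¹ * ((τ ^ (2 * (i : ℕ) * W)) ^ (sq b k).1 *
          (τ ^ (2 * (i : ℕ))) ^ (sq b k).2 *
          ((X : ℝ[X]) ^ (c : ℕ) * (1 + X) ^ (sq b k).1).coeff (sq b k).2) := by
      rw [← h3, ← mul_assoc, inv_mul_cancel₀ h5, one_mul]
    rw [h6]; ring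
  have h2 : ∀ f : Fin m × Fin b → ℝ, ∑ p, a p * f p = 0 := by
    intro f
    obtain ⟨G, rfl⟩ := hLsurj f
    have h3 : ∀ p, a p * L G p = ∑ k : Fin (m * b), G k * (a p *
        (uvec b k p.2 * τ ^ (2 * (p.1 : ℕ) * expo b W k))) := by
      intro p
      show a p * (∑ k : Fin (m * b), G k * (uvec b k p.2 * τ ^ (2 * (p.1 : ℕ) * expo b W k))) = _
      rw [Finset.mul_sum]
      apply Finset.sum_congr rfl
      intro k _; ring
    simp only [h3]
    rw [Finset.sum_comm]
    apply Finset.sum_eq_zero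
    intro k _
    rw [← Finset.mul_sum, h1 k, mul_zero]
  intro i hi c hc
  have h3 := h2 (Pi.single (⟨i, hi⟩, ⟨c, hc⟩) 1)
  rw [Finset.sum_eq_single (⟨i, hi⟩, ⟨c, hc⟩)] at h3
  · simp only [Pi.single_eq_same, mul_one, ha] at h3
    rcases mul_eq_zero.1 h3 with h4 | h4
    · exact h4
    · exfalso
      have h5 : (τ ^ (2 * i)) ^ c ≠ 0 := by positivity
      exact inv_ne_zero h5 h4
  · intro p _ hp
    rw [Pi.single_eq_of_ne hp, mul_zero]
  · simp

end Pool.Agent.Cofactor
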