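import Pool.Agent.Cofactor.Scaling

set_option autoImplicit false

open Polynomial

namespace Pool.Agent.Cofactor

lemma coeff_lin (α ρ : ℝ) (c r t : ℕ) :
    ρ ^ c * ((X : ℝ[X]) ^ c * (C α + C (α * ρ) * X) ^ r).coeff t =
      α ^ r * ρ ^ t * ((X : ℝ[X]) ^ c * (1 + X) ^ r).coeff t := by
  have h1 : C (α ^ r) * (((X : ℝ[X]) ^ c * (1 + X) ^ r).comp (C ρ * X)) =
      C (ρ ^ c) * ((X : ℝ[X]) ^ c * (C α + C (α * ρ) * X) ^ r) := by
    simp only [mul_comp, pow_comp, X_comp, add_comp, one_comp]
    have h2 : (C α + C (α * ρ) * X : ℝ[X]) = C α * (1 + C ρ * X) := by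
      rw [C_mul]; ring
    rw [h2, mul_pow, mul_pow, C_pow, C_pow]
    ring
  have h3 := congrArg (fun p => coeff p t) h1
  simp only [coeff_C_mul, comp_C_mul_X_coeff] at h3
  rw [← h3]; ring

lemma sum_sq (b : ℕ) (hb : 0 < b) (F : ℕ → ℕ → ℝ) (S : ℕ) :
    ∑ k ∈ Finset.range (S * b + S.choose 2), F (sq b k).1 (sq b k).2 =
      ∑ r ∈ Finset.range S, ∑ t ∈ Finset.range (b + r), F r t := by
  induction S with
  | zero => simp
  | succ S ih =>
    have h2 : (S + 1).choose 2 = S.choose 2 + S := by
      rw [Nat.choose_succ_succ' S 1]; simp; omega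
    have h3 : (S + 1) * b + (S + 1).choose 2 = S * b + S.choose 2 + (b + S) := by
      rw [h2]; ring
    rw [h3, Finset.sum_range_add, Finset.sum_range_succ, ih]
    congr 1
    apply Finset.sum_congr rfl
    intro t ht
    rw [Finset.mem_range] at ht
    rw [sq_add b _ S 0 t (sq_start b hb S) (by omega)]
    simp

lemma sq_fst_mono (b : ℕ) {k l : ℕ} (h : k ≤ l) : (sq b k).1 ≤ (sq b l).1 := by
  induction l, h using Nat.le_induction with
  | base => exact le_rfl
  | succ l _ ih =>
    refine le_trans ih ?_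
    simp only [sq, nxt]
    split_ifs with h
    · exact le_rfl
    · simp

lemma key (s m b : ℕ) (hb : 0 < b) (hm : (s + 1) * b + (s + 1).choose 2 ≤ m * b) :
    ∃ α β : ℕ → ℝ, (∀ i, β i ≠ 0) ∧ ∀ G : ℕ → ℕ → ℝ,
      (∀ i < m, ∀ c < b, ∑ r ∈ Finset.range (s + 1), ∑ t ∈ Finset.range (b + r),
        ((X : ℝ[X]) ^ c * (C (α i) + C (β i) * X) ^ r).coeff t * G r t = 0) →
      ∀ r ≤ s, ∀ t < b + r, G r t = 0 := by
  obtain ⟨τ, hτ, W, hW⟩ := exists_tau m b hb
  refine ⟨fun i => τ ^ (2 * i * W), fun i => τ ^ (2 * i * W) * τ ^ (2 * i), ?_, ?_⟩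
  · intro i; positivity
  intro G hG
  set G' : ℕ → ℝ := fun k => if (sq b k).1 ≤ s then G (sq b k).1 (sq b k).2 else 0 with hG'
  have h1 := hW G' (by
    intro i hi c
    have h2 := hG i hi c c.2
    have h3 : (τ ^ (2 * i)) ^ (c : ℕ) * (∑ r ∈ Finset.range (s + 1), ∑ t ∈ Finset.range (b + r),
        ((X : ℝ[X]) ^ (c : ℕ) * (C (τ ^ (2 * i * W)) + C (τ ^ (2 * i * W) * τ ^ (2 * i)) * X) ^ r).coeff t
          * G r t) = 0 := by
      rw [h2, mul_zero]
    rw [← h3]
    obtain ⟨N, hN⟩ := Nat.exists_eq_add_of_le hm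
    rw [hN, Finset.sum_range_add]
    have h4 : ∑ x ∈ Finset.range N, G' ((s + 1) * b + (s + 1).choose 2 + x) *
        (uvec b ((s + 1) * b + (s + 1).choose 2 + x) c *
          τ ^ (2 * i * expo b W ((s + 1) * b + (s + 1).choose 2 + x))) = 0 := by
      apply Finset.sum_eq_zero
      intro x _
      have h5 : s + 1 ≤ (sq b ((s + 1) * b + (s + 1).choose 2 + x)).1 := by
        have h6 := sq_fst_mono b (Nat.le_add_right ((s + 1) * b + (s + 1).choose 2) x)
        rw [sq_start b hb (s + 1)] at h6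
        exact h6
      have h7 : G' ((s + 1) * b + (s + 1).choose 2 + x) = 0 := by
        simp only [hG']
        rw [if_neg (by omega)]
      rw [h7, zero_mul]
    rw [h4, add_zero]
    have h8 := sum_sq b hb (fun r t => G r t * (((X : ℝ[X]) ^ (c : ℕ) * (1 + X) ^ r).coeff t *
      τ ^ (2 * i * (W * r + t)))) (s + 1)
    have h9 : ∑ x ∈ Finset.range ((s + 1) * b + (s + 1).choose 2), G' x * (uvec b x c *
        τ ^ (2 * i * expo b W x)) = ∑ k ∈ Finset.range ((s + 1) * b + (s + 1).choose 2),
        (fun r t => G r t * (((X : ℝ[X]) ^ (c : ℕ) * (1 + X) ^ r).coeff t *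
      τ ^ (2 * i * (W * r + t)))) (sq b k).1 (sq b k).2 := by
      apply Finset.sum_congr rfl
      intro k hk
      rw [Finset.mem_range] at hk
      have h10 : (sq b k).1 ≤ s := by
        by_contra h11
        push Not at h11
        have h13 : k = (sq b k).1 * b + (sq b k).1.choose 2 + (sq b k).2 := by
          clear hk h11
          induction k with
          | zero => simp [sq]
          | succ k ih =>
            have hlt := sq_lt b hb k
            simp only [sq, nxt]
            split_ifs with h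
            · simp only; omega
            · simp only
              have h2 : ((sq b k).1 + 1).choose 2 = (sq b k).1.choose 2 + (sq b k).1 := by
                rw [Nat.choose_succ_succ' _ 1]; simp; omega
              rw [h2, add_mul]; omega
        have h14 : (s + 1) * b ≤ (sq b k).1 * b := Nat.mul_le_mul_right b h11
        have h15 : (s + 1).choose 2 ≤ (sq b k).1.choose 2 := Nat.choose_le_choose 2 h11
        omega
      simp only [hG', uvec, expo]
      rw [if_pos h10]
    rw [h9, h8, Finset.mul_sum]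
    apply Finset.sum_congr rfl
    intro r _
    rw [Finset.mul_sum]
    apply Finset.sum_congr rfl
    intro t _
    have h16 := coeff_lin (τ ^ (2 * i * W)) (τ ^ (2 * i)) c r t
    rw [← mul_assoc ((τ ^ (2 * i)) ^ (c : ℕ)), h16]
    have h17 : τ ^ (2 * i * (W * r + t)) = (τ ^ (2 * i * W)) ^ r * (τ ^ (2 * i)) ^ t := by
      rw [← pow_mul, ← pow_mul, ← pow_add]; congr 1; ring
    rw [h17]; ring)
  intro r hr t ht
  have h2 := sq_add b _ r 0 t (sq_start b hb r) (by omega)
  have h3 : r * b + r.choose 2 + t < m * b := by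
    have h4 : r.choose 2 + r ≤ (s + 1).choose 2 := by
      have h5 : (r + 1).choose 2 = r.choose 2 + r := by
        rw [Nat.choose_succ_succ' _ 1]; simp; omega
      rw [← h5]
      exact Nat.choose_le_choose 2 (by omega)
    have h6 : (r + 1) * b ≤ (s + 1) * b := Nat.mul_le_mul_right b (by omega)
    rw [add_mul, one_mul] at h6
    omega
  have h4 := h1 _ h3
  simp only [hG', h2] at h4
  rw [if_pos hr] at h4
  simpa using h4

end Pool.Agent.Cofactor
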