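import Pool.Agent.Cofactor.Cmat

set_option autoImplicit false

open Polynomial Filter Topology
open Classical

namespace Pool.Agent.Cofactor

/-- Rank is lower semicontinuous (one-parameter version). -/
lemma rank_lsc {R C : Type*} [Fintype R] [Fintype C] (A : ℝ → Matrix R C ℝ)
    (hA : Continuous A) : ∀ᶠ ε in 𝓝 (0 : ℝ), (A 0).rank ≤ (A ε).rank := by
  obtain ⟨κ, a, hainj, hspan, hli⟩ := exists_linearIndependent' ℝ (A 0).row
  have : Finite κ := Finite.of_injective a hainj
  have : Fintype κ := Fintype.ofFinite κ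
  have hrank : (A 0).rank = Fintype.card κ := by
    rw [Matrix.rank_eq_finrank_span_row, ← hspan, finrank_span_eq_card hli]
  have hcont : Continuous (fun ε => (fun k : κ => (A ε).row (a k))) := by
    apply continuous_pi
    intro k
    have h1 : Continuous (fun ε => (A ε) (a k)) := by
      exact (continuous_apply (a k)).comp hA
    exact h1
  have hopen : IsOpen {f : κ → C → ℝ | LinearIndependent ℝ f} :=
    isOpen_setOfPred_linearIndependent
  have h2 : {f : κ → C → ℝ | LinearIndependent ℝ f} ∈ 𝓝 (fun k : κ => (A 0).row (a k)) :=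
    hopen.mem_nhds hli
  filter_upwards [hcont.continuousAt.eventually h2] with ε hε
  rw [hrank]
  have hε' : LinearIndependent ℝ (fun k : κ => (A ε).row (a k)) := hε
  have h3 : ((A ε).submatrix a id).rank = Fintype.card κ :=
    LinearIndependent.rank_matrix (M := (A ε).submatrix a id) hε'
  rw [← h3]
  exact Matrix.rank_submatrix_le _ _ _

/-- Coefficient polynomial of a trivial motion. -/
noncomputable def Qp (s : ℕ) (w : (Σ k : Fin (s + 1), Fin (s + 1 - k)) → ℝ) (a c : ℝ) : ℝ[X] :=
  ∑ i, C (w i) * (X ^ (i.2 : ℕ) * (C a * X - C c) ^ (i.1 : ℕ))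

lemma Qp_natDegree (s : ℕ) (w : (Σ k : Fin (s + 1), Fin (s + 1 - k)) → ℝ) (a c : ℝ) :
    (Qp s w a c).natDegree < s + 1 := by
  have h : (Qp s w a c).natDegree ≤ s := by
    unfold Qp
    apply natDegree_sum_le_of_forall_le
    intro i _
    refine (natDegree_C_mul_le _ _).trans ?_
    refine natDegree_mul_le.trans ?_
    rw [natDegree_X_pow]
    have h1 : ((C a * X - C c : ℝ[X]) ^ (i.1 : ℕ)).natDegree ≤ (i.1 : ℕ) := by
      refine natDegree_pow_le.trans ?_
      have : (C a * X - C c : ℝ[X]).natDegree ≤ 1 := by compute_degree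
      nlinarith
    have h2 := i.2.2
    omega
  omega

lemma Qp_eval (s : ℕ) (w : (Σ k : Fin (s + 1), Fin (s + 1 - k)) → ℝ) (a c z : ℝ) :
    (Qp s w a c).eval z = ∑ i, w i * (z ^ (i.2 : ℕ) * (a * z - c) ^ (i.1 : ℕ)) := by
  unfold Qp
  rw [eval_finsetSum]
  simp

variable {V : Type*} [Fintype V]

/-- The linear map from parameters to trivial motions. -/
noncomputable def triv (s : ℕ) (x y : V → ℝ) :
    ((Σ k : Fin (s + 1), Fin (s + 1 - k)) → ℝ) →ₗ[ℝ] (V × Fin (s + 1) → ℝ) where
  toFun w := fun c => (Qp s w (x c.1) (y c.1)).coeff (c.2 : ℕ)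
  map_add' := by
    intro w w'
    funext c
    simp [Qp, add_mul, Finset.sum_add_distrib]
  map_smul' := by
    intro r w
    funext c
    simp [Qp, mul_assoc, Finset.mul_sum]

lemma triv_ker (s : ℕ) (x y : V → ℝ) (hx : Function.Injective x)
    (w : (Σ k : Fin (s + 1), Fin (s + 1 - k)) → ℝ) :
    (cmat s ⊤ x y).mulVec (triv s x y w) = 0 := by
  funext e
  obtain ⟨p, q⟩ := e
  rw [mulVec_cmat]
  by_cases hpq : p = q
  · simp [hpq]
  rw [if_pos (by simpa using hpq)]
  have hdx : x p - x q ≠ 0 := sub_ne_zero.2 (fun h => hpq (hx h))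
  set z := (y p - y q) / (x p - x q) with hz
  have hyz : y p - y q = (x p - x q) * z := by
    rw [hz]; field_simp
  have h1 : rowval s x y (triv s x y w) p q =
      (x p - x q) ^ s * ((Qp s w (x p) (y p)).eval z - (Qp s w (x q) (y q)).eval z) := by
    rw [eval_eq_sum_range' (Qp_natDegree s w _ _), eval_eq_sum_range' (Qp_natDegree s w _ _),
      ← Finset.sum_sub_distrib, Finset.mul_sum, Finset.sum_range]
    unfold rowval
    apply Finset.sum_congr rfl
    intro k _
    have hk : (k : ℕ) ≤ s := Nat.lt_succ_iff.1 k.2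
    have h7 : (x p - x q) ^ s = (x p - x q) ^ (s - (k : ℕ)) * (x p - x q) ^ (k : ℕ) := by
      rw [← pow_add, Nat.sub_add_cancel hk]
    rw [hyz, mul_pow, h7]
    simp only [triv, LinearMap.coe_mk, AddHom.coe_mk]
    ring
  rw [h1, Qp_eval, Qp_eval]
  have h2 : x p * z - y p = x q * z - y q := by linarith
  rw [h2]
  simp

lemma triv_inj (s : ℕ) (x y : V → ℝ) (hx : Function.Injective x) (hV : s + 1 ≤ Fintype.card V) :
    Function.Injective (triv s x y) := by
  rw [injective_iff_map_eq_zero]
  intro w hw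
  have h1 : ∀ p, Qp s w (x p) (y p) = 0 := by
    intro p
    ext k
    rw [coeff_zero]
    by_cases hk : k < s + 1
    · exact congrFun hw (p, ⟨k, hk⟩)
    · exact coeff_eq_zero_of_natDegree_lt (lt_of_lt_of_le (Qp_natDegree s w _ _) (by omega))
  -- good values of `z`
  set bad : Set ℝ := ⋃ pq : V × V, {z | pq.1 ≠ pq.2 ∧ x pq.1 * z - y pq.1 = x pq.2 * z - y pq.2} with hbad
  have hbadfin : bad.Finite := by
    apply Set.finite_iUnion
    intro pq
    by_cases hpq : pq.1 = pq.2
    · convert Set.finite_empty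
      ext z; simp [hpq]
    · apply Set.Finite.subset (Set.finite_singleton ((y pq.1 - y pq.2) / (x pq.1 - x pq.2)))
      intro z hz
      have hdx : x pq.1 - x pq.2 ≠ 0 := sub_ne_zero.2 (fun h => hpq (hx h))
      rw [Set.mem_singleton_iff, eq_div_iff hdx]
      have := hz.2
      linarith
  have hgood : Set.Infinite badᶜ := hbadfin.infinite_compl
  have h2 : ∀ z ∈ badᶜ, ∀ k : Fin (s + 1), ∑ l : Fin (s + 1 - k), w ⟨k, l⟩ * z ^ (l : ℕ) = 0 := by
    intro z hz
    have h3 : (fun k : Fin (s + 1) => ∑ l : Fin (s + 1 - k), w ⟨k, l⟩ * z ^ (l : ℕ)) = 0 := by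
      apply poly_zero _ (s + 1) (fun k hk => absurd k.2 (by omega))
        ((Finset.univ : Finset V).image (fun p : V => x p * z - y p))
      · rw [Finset.card_image_of_injective]
        · simpa using hV
        · intro p q hpq
          by_contra hne
          apply hz
          rw [hbad, Set.mem_iUnion]
          exact ⟨(p, q), hne, hpq⟩
      · intro u hu
        rw [Finset.mem_image] at hu
        obtain ⟨p, _, rfl⟩ := hu
        have h4 := Qp_eval s w (x p) (y p) z
        rw [h1 p, eval_zero, Fintype.sum_sigma] at h4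
        rw [h4]
        apply Finset.sum_congr rfl
        intro k _
        rw [Finset.sum_mul]
        apply Finset.sum_congr rfl
        intro l _
        ring
    intro k
    exact congrFun h3 k
  funext i
  obtain ⟨k, l⟩ := i
  set P : ℝ[X] := ∑ l : Fin (s + 1 - k), C (w ⟨k, l⟩) * X ^ (l : ℕ) with hP
  have hP0 : P = 0 := by
    apply eq_zero_of_infinite_isRoot
    apply hgood.mono
    intro z hz
    show P.IsRoot z
    rw [IsRoot.def, hP, eval_finsetSum, ← h2 z hz k]
    apply Finset.sum_congr rfl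
    intro l _
    simp
  have hcoeff : P.coeff l = w ⟨k, l⟩ := by
    rw [hP, finsetSum_coeff]
    simp only [coeff_C_mul, coeff_X_pow]
    rw [Finset.sum_eq_single l]
    · simp
    · intro d _ hd
      have : (l : ℕ) ≠ d := fun h => hd (Fin.ext h.symm)
      simp [this]
    · simp
  rw [← hcoeff, hP0]
  simp

lemma rank_top_le_inj (s : ℕ) (hV : s + 1 ≤ Fintype.card V) (x y : V → ℝ)
    (hx : Function.Injective x) :
    (cmat s ⊤ x y).rank + (s + 2).choose 2 ≤ (s + 1) * Fintype.card V := by
  have h1 := rank_upper (cmat s ⊤ x y) (triv s x y) (triv_inj s x y hx hV) (triv_ker s x y hx)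
  rw [Fintype.card_prod, Fintype.card_fin, Fintype.card_sigma] at h1
  simp only [Fintype.card_fin] at h1
  have h2 : ∑ k : Fin (s + 1), (s + 1 - (k : ℕ)) = (s + 2).choose 2 := by
    rw [← sum_gauss, Finset.sum_range]
  rw [h2] at h1
  rw [mul_comm (s + 1)]
  exact h1

lemma rank_top_le (s : ℕ) (hV : s + 1 ≤ Fintype.card V) (x y : V → ℝ) :
    (cmat s ⊤ x y).rank + (s + 2).choose 2 ≤ (s + 1) * Fintype.card V := by
  set ι : V → ℕ := fun p => (Fintype.equivFin V p : ℕ) with hι
  have hιinj : Function.Injective ι := by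
    intro p q hpq
    exact (Fintype.equivFin V).injective (Fin.ext hpq)
  set A : ℝ → Matrix (V × V) (V × Fin (s + 1)) ℝ :=
    fun ε => cmat s ⊤ (fun p => x p + ε * ι p) y with hA
  have hcont : Continuous A := by
    apply continuous_matrix
    intro e c
    simp only [hA, cmat, Matrix.of_apply]
    split_ifs <;> fun_prop
  have h1 := rank_lsc A hcont
  have h2 : ∀ᶠ ε in 𝓝[≠] (0 : ℝ), ∀ pq : V × V, pq.1 ≠ pq.2 →
      x pq.1 + ε * ι pq.1 ≠ x pq.2 + ε * ι pq.2 := by
    rw [Filter.eventually_all]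
    intro pq
    by_cases hpq : pq.1 = pq.2
    · simp [hpq]
    by_cases hxx : x pq.1 = x pq.2
    · filter_upwards [self_mem_nhdsWithin] with ε hε _ h
      rw [hxx, add_right_inj] at h
      have := mul_left_cancel₀ hε h
      exact hpq (hιinj (by exact_mod_cast this))
    · have h3 : ContinuousAt (fun ε : ℝ => (x pq.1 + ε * ι pq.1) - (x pq.2 + ε * ι pq.2)) 0 := by
        fun_prop
      have h4 : (fun ε : ℝ => (x pq.1 + ε * ι pq.1) - (x pq.2 + ε * ι pq.2)) 0 ≠ 0 := by
        simpa [sub_eq_zero] using hxx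
      have h5 := h3.eventually_ne h4
      filter_upwards [nhdsWithin_le_nhds h5] with ε hε _ h
      exact hε (sub_eq_zero.2 h)
  have h3 := (nhdsWithin_le_nhds h1 : ∀ᶠ ε in 𝓝[≠] (0 : ℝ), (A 0).rank ≤ (A ε).rank)
  obtain ⟨ε, hε1, hε2⟩ := (h2.and h3).exists
  have h4 : A 0 = cmat s ⊤ x y := by
    simp [hA]
  rw [h4] at hε2
  have h5 := rank_top_le_inj s hV (fun p => x p + ε * ι p) y (by
    intro p q hpq
    by_contra hne
    exact hε1 (p, q) hne hpq)
  have h6 : (A ε).rank = (cmat s ⊤ (fun p => x p + ε * ι p) y).rank := rfl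
  omega

end Pool.Agent.Cofactor
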