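import Pool.Agent.Cofactor.Bip
import Pool.Agent.Cofactor.BipInd
import Pool.Agent.Cofactor.Generic
import Pool.Agent.Cofactor.Top

/-!
# The generic rank of complete bipartite graphs in the cofactor matroids
-/

set_option autoImplicit false

namespace Pool.Agent.Cofactor

/-- The complete bipartite graph `K_{m,n}` with the vertices `0, .., m + n - 1`: the first `m`
vertices are joined to the last `n`. -/
def Kmn (m n : ℕ) : SimpleGraph (Fin (m + n)) where
  Adj i j := ((i : ℕ) < m ∧ m ≤ (j : ℕ)) ∨ ((j : ℕ) < m ∧ m ≤ (i : ℕ))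
  symm := ⟨fun _ _ h => h.symm⟩
  loopless := ⟨fun i h => by omega⟩

/-- The `C_s^{s-1}`-cofactor matrix of a graph at the points `(x i, y i)`: one row for every edge
`{i, j}` (`i < j`) and a block of `s + 1` columns for every vertex; the row of `{i, j}` is
`D = ((x i - x j) ^ (s - k) * (y i - y j) ^ k)`, `k = 0, .., s`, in block `i`, `- D` in block `j`
and zero in all other blocks. -/
noncomputable def cofactorMatrix (s : ℕ) {N : ℕ} (G : SimpleGraph (Fin N)) (x y : Fin N → ℝ) :
    Matrix {e : Fin N × Fin N // e.1 < e.2 ∧ G.Adj e.1 e.2} (Fin N × Fin (s + 1)) ℝ :=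
  Matrix.of fun e c =>
    if c.1 = e.1.1 then
      (x e.1.1 - x e.1.2) ^ (s - (c.2 : ℕ)) * (y e.1.1 - y e.1.2) ^ (c.2 : ℕ)
    else if c.1 = e.1.2 then
      -((x e.1.1 - x e.1.2) ^ (s - (c.2 : ℕ)) * (y e.1.1 - y e.1.2) ^ (c.2 : ℕ))
    else 0

/-- The `2 N` coordinates are algebraically independent over `ℚ`. -/
def Generic {N : ℕ} (x y : Fin N → ℝ) : Prop := AlgebraicIndependent ℚ (Sum.elim x y)

/-- Generic `C_s^{s-1}`-rigidity. -/
def GenericallyRigid (s : ℕ) {N : ℕ} (G : SimpleGraph (Fin N)) : Prop :=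
  ∀ x y : Fin N → ℝ, Generic x y →
    (s + 1 ≤ N ∧ ((cofactorMatrix s G x y).rank : ℤ) =
      ((s : ℤ) + 1) * (N : ℤ) - ((s + 2).choose 2 : ℕ)) ∨ (N ≤ s ∧ G = ⊤)

lemma exists_generic_fin (N : ℕ) : ∃ x y : Fin N → ℝ, Generic x y := by
  obtain ⟨p, hp⟩ := exists_generic (Fin N ⊕ Fin N)
  refine ⟨p ∘ Sum.inl, p ∘ Sum.inr, ?_⟩
  unfold Generic
  rwa [Sum.elim_comp_inl_inr]

/-- The rank is largest at generic points. -/
lemma rank_le_generic (s : ℕ) {N : ℕ} (G : SimpleGraph (Fin N)) (x y x' y' : Fin N → ℝ)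
    (h : Generic x y) : (cofactorMatrix s G x' y').rank ≤ (cofactorMatrix s G x y).rank := by
  have hF : Fintype {e : Fin N × Fin N // e.1 < e.2 ∧ G.Adj e.1 e.2} := Fintype.ofFinite _
  have key : ∀ u v : Fin N → ℝ, cofactorMatrix s G u v =
      (Matrix.of (fun (e : {e : Fin N × Fin N // e.1 < e.2 ∧ G.Adj e.1 e.2})
        (c : Fin N × Fin (s + 1)) =>
        if c.1 = e.1.1 then
          (MvPolynomial.X (Sum.inl e.1.1) - MvPolynomial.X (Sum.inl e.1.2)) ^ (s - (c.2 : ℕ)) *
          (MvPolynomial.X (Sum.inr e.1.1) - MvPolynomial.X (Sum.inr e.1.2)) ^ (c.2 : ℕ)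
        else if c.1 = e.1.2 then
          -((MvPolynomial.X (Sum.inl e.1.1) - MvPolynomial.X (Sum.inl e.1.2)) ^ (s - (c.2 : ℕ)) *
          (MvPolynomial.X (Sum.inr e.1.1) - MvPolynomial.X (Sum.inr e.1.2)) ^ (c.2 : ℕ))
        else (0 : MvPolynomial (Fin N ⊕ Fin N) ℚ))).map
      (MvPolynomial.aeval (Sum.elim u v) : MvPolynomial (Fin N ⊕ Fin N) ℚ →ₐ[ℚ] ℝ) := by
    intro u v
    ext e c
    simp only [cofactorMatrix, Matrix.map_apply, Matrix.of_apply]
    split_ifs <;> simp
  exact rank_generic _ (Sum.elim x y) (Sum.elim x' y') h _ _ (key x y) (key x' y')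

/-- Change of the vertex set. -/
lemma rank_transfer (s m n : ℕ) (x y : Fin (m + n) → ℝ) :
    (cofactorMatrix s (Kmn m n) x y).rank =
      (cmat s (completeBipartiteGraph (Fin m) (Fin n)) (x ∘ finSumFinEquiv)
        (y ∘ finSumFinEquiv)).rank := by
  classical
  have hF : Fintype {e : Fin (m + n) × Fin (m + n) // e.1 < e.2 ∧ (Kmn m n).Adj e.1 e.2} :=
    Fintype.ofFinite _
  set M2 := cmat s (completeBipartiteGraph (Fin m) (Fin n)) (x ∘ finSumFinEquiv)
        (y ∘ finSumFinEquiv) with hM2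
  set ec : (Fin m ⊕ Fin n) × Fin (s + 1) ≃ Fin (m + n) × Fin (s + 1) :=
    finSumFinEquiv.prodCongr (Equiv.refl _) with hec
  set f : {e : Fin (m + n) × Fin (m + n) // e.1 < e.2 ∧ (Kmn m n).Adj e.1 e.2} →
      (Fin m ⊕ Fin n) × (Fin m ⊕ Fin n) :=
    fun e => (finSumFinEquiv.symm e.1.1, finSumFinEquiv.symm e.1.2) with hf
  have hadj : ∀ p q : Fin (m + n), (Kmn m n).Adj p q →
      (completeBipartiteGraph (Fin m) (Fin n)).Adj (finSumFinEquiv.symm p)
        (finSumFinEquiv.symm q) := by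
    intro p q h
    obtain ⟨p, rfl⟩ := finSumFinEquiv.surjective p
    obtain ⟨q, rfl⟩ := finSumFinEquiv.surjective q
    rw [Equiv.symm_apply_apply, Equiv.symm_apply_apply]
    rcases p with i | j <;> rcases q with i' | j' <;>
      simp [Kmn, completeBipartiteGraph] at h ⊢
    omega
  have h1 : (cofactorMatrix s (Kmn m n) x y).submatrix id ec = M2.submatrix f id := by
    ext e c
    obtain ⟨⟨p, q⟩, hpq, hpq2⟩ := e
    have h2 := hadj p q hpq2
    obtain ⟨v, k⟩ := c
    have h3 : ∀ u : Fin (m + n), (v = finSumFinEquiv.symm u) = (finSumFinEquiv v = u) := by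
      intro u
      rw [Equiv.eq_symm_apply]
    simp only [cofactorMatrix, hM2, cmat, Matrix.submatrix_apply, Matrix.of_apply, hf, hec, id,
      Equiv.prodCongr_apply, Prod.map, Equiv.refl_apply, if_pos h2, Function.comp,
      Equiv.apply_symm_apply, h3]
  have h2 : (cofactorMatrix s (Kmn m n) x y).rank =
      ((cofactorMatrix s (Kmn m n) x y).submatrix id ec).rank :=
    (Matrix.rank_submatrix _ (Equiv.refl _) ec).symm
  rw [h2, h1]
  apply le_antisymm
  · exact Matrix.rank_submatrix_le _ _ _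
  · apply rank_le_of_ker
    intro v hv
    have h3 : ∀ (i : Fin m) (j : Fin n),
        rowval s (x ∘ finSumFinEquiv) (y ∘ finSumFinEquiv) v (Sum.inl i) (Sum.inr j) = 0 := by
      intro i j
      have h4 : (finSumFinEquiv (Sum.inl i) : Fin (m + n)) < finSumFinEquiv (Sum.inr j) := by
        rw [Fin.lt_def]
        simp
        omega
      have h5 : (Kmn m n).Adj (finSumFinEquiv (Sum.inl i)) (finSumFinEquiv (Sum.inr j)) := by
        left
        simp
      have h6 := congrFun hv ⟨(finSumFinEquiv (Sum.inl i), finSumFinEquiv (Sum.inr j)), h4, h5⟩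
      have h7 : (M2.submatrix f id).mulVec v
          ⟨(finSumFinEquiv (Sum.inl i), finSumFinEquiv (Sum.inr j)), h4, h5⟩ =
          M2.mulVec v (Sum.inl i, Sum.inr j) := by
        simp only [Matrix.mulVec, hf, Matrix.submatrix_apply, Equiv.symm_apply_apply]
        rfl
      rw [h7, hM2, mulVec_cmat, if_pos (by simp [completeBipartiteGraph])] at h6
      exact h6
    funext e
    obtain ⟨p, q⟩ := e
    rw [hM2, mulVec_cmat]
    rcases p with i | j <;> rcases q with i' | j'
    · simp [completeBipartiteGraph]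
    · rw [h3]; simp
    · rw [rowval_symm, h3]; simp
    · simp [completeBipartiteGraph]

/-- Both upper bounds. -/
lemma rank_upper_bounds (s m n : ℕ) (hmn : s + 1 ≤ m + n) (x y : Fin (m + n) → ℝ) :
    (cofactorMatrix s (Kmn m n) x y).rank ≤ m * n ∧
    (cofactorMatrix s (Kmn m n) x y).rank + (s + 2).choose 2 ≤ (s + 1) * (m + n) := by
  rw [rank_transfer]
  refine ⟨rank_bip_le s m n _ _, ?_⟩
  have h1 := rank_top_le (V := Fin m ⊕ Fin n) s (by simpa using hmn) (x ∘ finSumFinEquiv)
    (y ∘ finSumFinEquiv)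
  have h2 : (cmat s (completeBipartiteGraph (Fin m) (Fin n)) (x ∘ finSumFinEquiv)
        (y ∘ finSumFinEquiv)).rank ≤ (cmat s ⊤ (x ∘ finSumFinEquiv) (y ∘ finSumFinEquiv)).rank := by
    apply rank_le_of_ker
    intro v hv
    funext e
    obtain ⟨p, q⟩ := e
    rw [mulVec_cmat]
    split_ifs with h
    · have h3 := congrFun hv (p, q)
      rw [mulVec_cmat, if_pos (by
        rw [SimpleGraph.top_adj]; exact (completeBipartiteGraph (Fin m) (Fin n)).ne_of_adj h)] at h3
      exact h3
    · rfl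
  rw [Fintype.card_sum, Fintype.card_fin, Fintype.card_fin] at h1
  omega

/-- One of the two bounds is attained. -/
lemma rank_attained (s m n : ℕ) (x y : Fin (m + n) → ℝ) (h : Generic x y) :
    m * n ≤ (cofactorMatrix s (Kmn m n) x y).rank ∨
    (s + 1) * (m + n) ≤ (cofactorMatrix s (Kmn m n) x y).rank + (s + 2).choose 2 := by
  have key : ∀ u v : Fin m ⊕ Fin n → ℝ,
      (cmat s (completeBipartiteGraph (Fin m) (Fin n)) u v).rank ≤
        (cofactorMatrix s (Kmn m n) x y).rank := by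
    intro u v
    have h1 := rank_le_generic s (Kmn m n) x y (u ∘ finSumFinEquiv.symm) (v ∘ finSumFinEquiv.symm) h
    rw [rank_transfer] at h1
    have h2 : ∀ w : Fin m ⊕ Fin n → ℝ, (w ∘ finSumFinEquiv.symm) ∘ finSumFinEquiv = w := by
      intro w; funext p; simp
    rw [h2, h2] at h1
    exact h1
  by_cases hm : m ≤ s + 1
  · obtain ⟨u, v, huv⟩ := rank_bip_small_left s m n hm
    exact Or.inl (huv.trans (key u v))
  by_cases hn : n ≤ s + 1
  · obtain ⟨u, v, huv⟩ := rank_bip_small_right s m n hn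
    exact Or.inl (huv.trans (key u v))
  rcases le_total ((m - s - 1) * (n - s - 1)) ((s + 1).choose 2) with h1 | h1
  · obtain ⟨u, v, huv⟩ := rank_bip_indep s m n (by omega) (by omega) h1
    exact Or.inl (huv.trans (key u v))
  · obtain ⟨u, v, huv⟩ := rank_bip_ge s m n (by omega) (by omega) h1
    exact Or.inr (huv.trans (Nat.add_le_add_right (key u v) _))

/-- **The generic rank of `K_{m,n}`.** -/
theorem generic_rank (s m n : ℕ) (hmn : s + 1 ≤ m + n) (x y : Fin (m + n) → ℝ)
    (h : Generic x y) : ((cofactorMatrix s (Kmn m n) x y).rank : ℤ) =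
      min ((m : ℤ) * n) (((s : ℤ) + 1) * (m + n) - ((s + 2).choose 2 : ℕ)) := by
  obtain ⟨h1, h2⟩ := rank_upper_bounds s m n hmn x y
  have h3 := rank_attained s m n x y h
  set R := (cofactorMatrix s (Kmn m n) x y).rank
  have h1' : (R : ℤ) ≤ (m : ℤ) * n := by exact_mod_cast h1
  have h2' : (R : ℤ) + ((s + 2).choose 2 : ℕ) ≤ ((s : ℤ) + 1) * (m + n) := by exact_mod_cast h2
  have h3' : (m : ℤ) * n ≤ R ∨ ((s : ℤ) + 1) * (m + n) ≤ R + ((s + 2).choose 2 : ℕ) := by
    rcases h3 with h3 | h3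
    · left; exact_mod_cast h3
    · right; exact_mod_cast h3
  apply le_antisymm
  · exact le_min h1' (by linarith)
  · rcases h3' with h3' | h3'
    · exact (min_le_left _ _).trans h3'
    · exact (min_le_right _ _).trans (by linarith)

theorem rigid_iff (s m n : ℕ) (hmn : s + 1 ≤ m + n) :
    GenericallyRigid s (Kmn m n) ↔
      ((s : ℤ) + 1) * ((m : ℤ) + n) - ((s + 2).choose 2 : ℕ) ≤ (m : ℤ) * n := by
  constructor
  · intro h
    obtain ⟨x, y, hxy⟩ := exists_generic_fin (m + n)
    rcases h x y hxy with ⟨_, h1⟩ | ⟨h1, _⟩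
    · rw [generic_rank s m n hmn x y hxy] at h1
      push_cast at h1
      rw [← h1]
      exact min_le_left _ _
    · omega
  · intro h x y hxy
    left
    refine ⟨hmn, ?_⟩
    rw [generic_rank s m n hmn x y hxy, min_eq_right h]
    push_cast
    ring

end Pool.Agent.Cofactor
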