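import Pool.Agent.Cofactor.KeyLemma

set_option autoImplicit false

open Polynomial

namespace Pool.Agent.Cofactor

/-- If a kernel vector vanishing on `S` is zero then the rank is at least `#columns - #S`. -/
lemma rank_lower {R C : Type*} [Fintype R] [Fintype C] (M : Matrix R C ℝ) (S : Finset C)
    (h : ∀ v : C → ℝ, M.mulVec v = 0 → (∀ c ∈ S, v c = 0) → v = 0) :
    Fintype.card C ≤ M.rank + S.card := by
  have h1 := LinearMap.finrank_range_add_finrank_ker M.mulVecLin
  rw [Module.finrank_fintype_fun_eq_card] at h1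
  set f : LinearMap.ker M.mulVecLin →ₗ[ℝ] (S → ℝ) :=
    (LinearMap.funLeft ℝ ℝ (fun c : S => (c : C))).comp (LinearMap.ker M.mulVecLin).subtype with hf
  have hinj : Function.Injective f := by
    rw [injective_iff_map_eq_zero]
    intro v hv
    apply Subtype.ext
    apply h v.1
    · have := v.2
      rw [LinearMap.mem_ker] at this
      exact this
    · intro c hc
      have := congrFun hv ⟨c, hc⟩
      simpa [hf, LinearMap.funLeft] using this
  have h2 := LinearMap.finrank_le_finrank_of_injective hinj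
  rw [Module.finrank_fintype_fun_eq_card, Fintype.card_coe] at h2
  unfold Matrix.rank
  omega

/-- If there is an injective linear map from a space of dimension `d` to the kernel then the rank
is at most `#columns - d`. -/
lemma rank_upper {R C I : Type*} [Fintype R] [Fintype C] [Fintype I] (M : Matrix R C ℝ)
    (f : (I → ℝ) →ₗ[ℝ] (C → ℝ)) (hf : Function.Injective f) (h : ∀ w, M.mulVec (f w) = 0) :
    M.rank + Fintype.card I ≤ Fintype.card C := by
  have h1 := LinearMap.finrank_range_add_finrank_ker M.mulVecLin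
  rw [Module.finrank_fintype_fun_eq_card] at h1
  set g : (I → ℝ) →ₗ[ℝ] LinearMap.ker M.mulVecLin :=
    f.codRestrict _ (fun w => by rw [LinearMap.mem_ker]; exact h w) with hg
  have hinj : Function.Injective g := by
    rw [injective_iff_map_eq_zero]
    intro w hw
    have h2 := congrArg Subtype.val hw
    simp only [hg, LinearMap.codRestrict_apply, ZeroMemClass.coe_zero] at h2
    exact (injective_iff_map_eq_zero f).1 hf w h2
  have h2 := LinearMap.finrank_le_finrank_of_injective hinj
  rw [Module.finrank_fintype_fun_eq_card] at h2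
  unfold Matrix.rank
  omega

lemma sum_gauss (s : ℕ) : ∑ k ∈ Finset.range (s + 1), (s + 1 - k) = (s + 2).choose 2 := by
  induction s with
  | zero => simp
  | succ s ih =>
    rw [Finset.sum_range_succ']
    have h1 : ∀ k ∈ Finset.range (s + 1), s + 1 + 1 - (k + 1) = s + 1 - k := by
      intro k _; omega
    rw [Finset.sum_congr rfl h1, ih]
    have h2 : (s + 1 + 2).choose 2 = (s + 2).choose 2 + (s + 2) := by
      rw [Nat.choose_succ_succ' (s + 2) 1]; simp; omega
    rw [h2]; omega

lemma card_S {V : Type*} [Fintype V] [DecidableEq V] (s : ℕ) (ι : V → ℕ)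
    (hι : Function.Injective ι) :
    (Finset.univ.filter (fun c : V × Fin (s + 1) => ι c.1 + (c.2 : ℕ) < s + 1)).card ≤
      (s + 2).choose 2 := by
  set T : Finset (Σ _ : ℕ, ℕ) := (Finset.range (s + 1)).sigma (fun k => Finset.range (s + 1 - k)) with hT
  have hcard : T.card = (s + 2).choose 2 := by
    rw [hT, Finset.card_sigma, ← sum_gauss]
    simp
  rw [← hcard]
  apply Finset.card_le_card_of_injOn (fun c => ⟨(c.2 : ℕ), ι c.1⟩)
  · intro c hc
    simp only [Finset.coe_filter, Finset.mem_univ, true_and, Set.mem_ofPred_eq] at hc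
    simp only [hT, Finset.coe_sigma, Finset.coe_range, Set.mem_sigma_iff, Set.mem_Iio]
    omega
  · intro c _ d _ hcd
    simp only [Sigma.mk.injEq, heq_eq_eq] at hcd
    exact Prod.ext (hι hcd.2) (Fin.ext hcd.1)

lemma card_S' {V : Type*} [Fintype V] [DecidableEq V] (s : ℕ) (ι : V → ℕ)
    (hι : Function.Injective ι) :
    (Finset.univ.filter (fun c : V × Fin (s + 1) => ι c.1 ≤ (c.2 : ℕ))).card ≤
      (s + 2).choose 2 := by
  refine le_trans ?_ (card_S s ι hι)
  apply Finset.card_le_card_of_injOn (fun c => (c.1, Fin.rev c.2))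
  · intro c hc
    simp only [Finset.coe_filter, Finset.mem_univ, true_and, Set.mem_ofPred_eq] at hc ⊢
    rw [Fin.val_rev]
    have := c.2.2
    omega
  · intro c _ d _ hcd
    simp only [Prod.mk.injEq] at hcd
    exact Prod.ext hcd.1 (Fin.rev_injective hcd.2)

lemma poly_zero {s : ℕ} (w : Fin (s + 1) → ℝ) (d : ℕ) (hw : ∀ k : Fin (s + 1), d ≤ (k : ℕ) → w k = 0)
    (T : Finset ℝ) (hT : d ≤ T.card) (h : ∀ z ∈ T, ∑ k : Fin (s + 1), w k * z ^ (k : ℕ) = 0) :
    w = 0 := by
  set P : ℝ[X] := ∑ k : Fin (s + 1), C (w k) * X ^ (k : ℕ) with hP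
  have hcoeff : ∀ k : Fin (s + 1), P.coeff k = w k := by
    intro c
    rw [hP, finsetSum_coeff]
    simp only [coeff_C_mul, coeff_X_pow]
    rw [Finset.sum_eq_single c]
    · simp
    · intro d _ hd
      have : (c : ℕ) ≠ d := fun h => hd (Fin.ext h.symm)
      simp [this]
    · simp
  have hcoeff' : ∀ j, d ≤ j → P.coeff j = 0 := by
    intro j hj
    rw [hP, finsetSum_coeff]
    apply Finset.sum_eq_zero
    intro k _
    rw [coeff_C_mul, coeff_X_pow]
    split_ifs with hjk
    · rw [hw k (by omega)]; simp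
    · simp
  have hdeg : P.degree < T.card := by
    refine lt_of_lt_of_le ?_ (by exact_mod_cast hT : ((d : ℕ) : WithBot ℕ) ≤ T.card)
    rw [degree_lt_iff_coeff_zero]
    exact hcoeff'
  have hP0 : P = 0 := by
    apply eq_zero_of_degree_lt_of_eval_finset_eq_zero T hdeg
    intro z hz
    rw [hP, eval_finsetSum, ← h z hz]
    apply Finset.sum_congr rfl
    intro k _
    simp
  funext k
  rw [← hcoeff k, hP0]
  simp

/-- Moments against a polynomial. -/
lemma moment_poly {n N : ℕ} (a θ : Fin n → ℝ) (h : ∀ t < N, ∑ j, a j * θ j ^ t = 0)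
    (P : ℝ[X]) (hP : P.natDegree < N) : ∑ j, a j * P.eval (θ j) = 0 := by
  have h1 : ∀ j, a j * P.eval (θ j) = ∑ t ∈ Finset.range N, P.coeff t * (a j * θ j ^ t) := by
    intro j
    rw [eval_eq_sum_range' hP, Finset.mul_sum]
    apply Finset.sum_congr rfl
    intro t _
    ring
  simp only [h1]
  rw [Finset.sum_comm]
  apply Finset.sum_eq_zero
  intro t ht
  rw [← Finset.mul_sum, h t (Finset.mem_range.1 ht), mul_zero]

lemma moment_zero {n N : ℕ} (a θ : Fin n → ℝ) (hθ : Function.Injective θ)
    (h : ∀ t < N, ∑ j, a j * θ j ^ t = 0) (S : Finset (Fin n)) (hS : ∀ j, j ∉ S → a j = 0)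
    (hcard : S.card ≤ N) : a = 0 := by
  funext j0
  by_cases hj0 : j0 ∈ S
  · set P : ℝ[X] := ∏ j ∈ S.erase j0, (X - C (θ j)) with hP
    have hdeg : P.natDegree < N := by
      rw [hP, natDegree_prod_of_monic _ _ (fun j _ => monic_X_sub_C _)]
      simp only [natDegree_X_sub_C, Finset.sum_const, smul_eq_mul, mul_one]
      have h1 := Finset.card_erase_lt_of_mem hj0
      omega
    have h1 := moment_poly a θ h P hdeg
    rw [Finset.sum_eq_single j0] at h1
    · rcases mul_eq_zero.1 h1 with h2 | h2
      · exact h2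
      · exfalso
        rw [hP, eval_prod, Finset.prod_eq_zero_iff] at h2
        obtain ⟨j, hj, hj2⟩ := h2
        simp only [eval_sub, eval_X, eval_C] at hj2
        have : j0 = j := hθ (by linarith)
        rw [this] at hj
        simp at hj
    · intro j _ hj
      by_cases hjS : j ∈ S
      · have : P.eval (θ j) = 0 := by
          rw [hP, eval_prod]
          apply Finset.prod_eq_zero (Finset.mem_erase.2 ⟨hj, hjS⟩)
          simp
        rw [this, mul_zero]
      · rw [hS j hjS, zero_mul]
    · simp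
  · exact hS j0 hj0

/-- Existence of Lagrange weights. -/
lemma exists_weights {n : ℕ} (hn : 0 < n) (θ : Fin n → ℝ) (hθ : Function.Injective θ) :
    ∃ lam : Fin n → ℝ, (∀ j, lam j ≠ 0) ∧ ∀ t < n - 1, ∑ j, lam j * θ j ^ t = 0 := by
  set f : (Fin n → ℝ) →ₗ[ℝ] (Fin (n - 1) → ℝ) :=
    { toFun := fun a t => ∑ j, a j * θ j ^ (t : ℕ)
      map_add' := by
        intro a b; funext t
        simp [add_mul, Finset.sum_add_distrib]
      map_smul' := by
        intro c a; funext t
        simp [mul_assoc, Finset.mul_sum] } with hf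
  have hker : LinearMap.ker f ≠ ⊥ := by
    apply LinearMap.ker_ne_bot_of_finrank_lt
    rw [Module.finrank_fintype_fun_eq_card, Module.finrank_fintype_fun_eq_card]
    simp; omega
  obtain ⟨a, ha, hane⟩ := (Submodule.ne_bot_iff _).1 hker
  have hmom : ∀ t < n - 1, ∑ j, a j * θ j ^ t = 0 := by
    intro t ht
    rw [LinearMap.mem_ker] at ha
    have := congrFun ha ⟨t, ht⟩
    simpa [hf] using this
  refine ⟨a, ?_, hmom⟩
  intro j hj
  apply hane
  apply moment_zero a θ hθ hmom (Finset.univ.erase j)
  · intro k hk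
    have : k = j := by
      by_contra hkj
      exact hk (Finset.mem_erase.2 ⟨hkj, Finset.mem_univ _⟩)
    rw [this]; exact hj
  · rw [Finset.card_erase_of_mem (Finset.mem_univ _)]; simp

end Pool.Agent.Cofactor
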