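import Pool.Agent.Cofactor.Windows

set_option autoImplicit false

open Polynomial

namespace Pool.Agent.Cofactor

/-- Block-diagonal limit plus openness of linear independence. -/
lemma exists_eps {m b : ℕ} (u : Fin m → Fin b → Fin b → ℝ)
    (hu : ∀ i, LinearIndependent ℝ (u i)) (w : Fin m → Fin b → Fin m → ℕ)
    (hw : ∀ i e i', w i e i' = 0 ↔ i' = i) :
    ∃ ε : ℝ, 0 < ε ∧ LinearIndependent ℝ (fun (p : Fin m × Fin b) =>
      fun (q : Fin m × Fin b) => u p.1 p.2 q.2 * ε ^ (w p.1 p.2 q.1)) := by
  set A : ℝ → (Fin m × Fin b) → (Fin m × Fin b) → ℝ := fun ε p q =>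
    u p.1 p.2 q.2 * ε ^ (w p.1 p.2 q.1) with hA
  have hcont : Continuous A := by
    rw [hA]
    fun_prop
  have h0 : LinearIndependent ℝ (A 0) := by
    rw [Fintype.linearIndependent_iff]
    intro g hg p
    obtain ⟨i, e⟩ := p
    have h1 : ∑ e : Fin b, g (i, e) • u i e = 0 := by
      funext c
      have h2 := congrFun hg (i, c)
      simp only [Finset.sum_apply, Pi.smul_apply, smul_eq_mul, Pi.zero_apply, hA] at h2 ⊢
      rw [← h2, Fintype.sum_prod_type]
      rw [Finset.sum_eq_single i]
      · apply Finset.sum_congr rfl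
        intro e _
        rw [(hw i e i).2 rfl]
        simp
      · intro i' _ hi'
        apply Finset.sum_eq_zero
        intro e _
        have : w i' e i ≠ 0 := fun h => hi' ((hw i' e i).1 h).symm
        simp [zero_pow this]
      · simp
    exact (Fintype.linearIndependent_iff.1 (hu i)) _ h1 e
  have hopen : IsOpen {f : (Fin m × Fin b) → (Fin m × Fin b) → ℝ | LinearIndependent ℝ f} :=
    isOpen_setOfPred_linearIndependent
  have hopen' := hopen.preimage hcont
  obtain ⟨δ, hδ, hball⟩ := Metric.isOpen_iff.1 hopen' 0 h0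
  refine ⟨δ / 2, by positivity, ?_⟩
  have : δ / 2 ∈ Metric.ball (0 : ℝ) δ := by
    rw [Metric.mem_ball, dist_zero_right, Real.norm_eq_abs, abs_of_pos (by positivity)]
    linarith
  exact hball this

/-- The exponent attached to an index. -/
def expo (b W k : ℕ) : ℕ := W * (sq b k).1 + (sq b k).2

lemma sq_fst_le (b k : ℕ) : (sq b k).1 ≤ k := by
  induction k with
  | zero => simp [sq]
  | succ k ih =>
    simp only [sq, nxt]
    split_ifs with h
    · simp; omega
    · simpa using ih

lemma expo_step (b W k : ℕ) (hb : 0 < b) (hW : b + k ≤ W) : expo b W k < expo b W (k + 1) := by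
  have h1 := sq_lt b hb k
  have h2 := sq_fst_le b k
  simp only [expo, sq, nxt]
  split_ifs with h
  · simp
  · simp only [mul_add, mul_one, add_zero]; omega

lemma expo_mono (b W N : ℕ) (hb : 0 < b) (hW : b + N ≤ W) {k l : ℕ} (hkl : k < l) (hl : l ≤ N) :
    expo b W k < expo b W l := by
  induction l with
  | zero => omega
  | succ l ih =>
    have h1 := expo_step b W l hb (by omega)
    rcases Nat.lt_succ_iff_lt_or_eq.1 hkl with h | h
    · exact lt_trans (ih h (by omega)) h1
    · rw [h]; exact h1

/-- cumulative thresholds -/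
def kap (b W : ℕ) : ℕ → ℤ
  | 0 => 0
  | i + 1 => kap b W i + (2 * (expo b W ((i + 1) * b) : ℤ) - 1)

lemma kap_lt (b W m : ℕ) (hb : 0 < b) (hW : b + m * b ≤ W) (i : ℕ) (hi : i < m) (e : ℕ) (he : e < b)
    (i' : ℕ) (hi' : i' < m) (hne : i' ≠ i) :
    0 < ((i : ℤ) - i') * (2 * (expo b W (i * b + e) : ℤ)) + kap b W i' - kap b W i := by
  have hk : i * b + e < (i + 1) * b := by
    rw [add_mul, one_mul]; omega
  have hkm : i * b + e < m * b := lt_of_lt_of_le hk (Nat.mul_le_mul_right b hi)
  rcases lt_or_gt_of_ne hne with h | h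
  · -- i' < i
    have key : ∀ d, ∀ j, j + d = i → 0 < d →
        0 < ((i : ℤ) - j) * (2 * (expo b W (i * b + e) : ℤ)) + kap b W j - kap b W i := by
      intro d
      induction d with
      | zero => intro j _ h0; omega
      | succ d ih =>
        intro j hj _
        have h3 : expo b W ((j + 1) * b) ≤ expo b W (i * b + e) := by
          have h4 : (j + 1) * b ≤ i * b := Nat.mul_le_mul_right b (by omega)
          rcases Nat.lt_or_ge ((j + 1) * b) (i * b + e) with h5 | h5
          · exact (expo_mono b W (m * b) hb hW h5 (by omega)).le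
          · have : (j + 1) * b = i * b + e := by omega
            rw [this]
        have h3' : (expo b W ((j + 1) * b) : ℤ) ≤ expo b W (i * b + e) := by exact_mod_cast h3
        have h6 : kap b W (j + 1) = kap b W j + (2 * (expo b W ((j + 1) * b) : ℤ) - 1) := rfl
        rcases Nat.eq_zero_or_pos d with hd | hd
        · have hji : (i : ℤ) = j + 1 := by
            have : i = j + 1 := by omega
            rw [this]; push_cast; ring
          have hji' : kap b W i = kap b W (j + 1) := by
            have : i = j + 1 := by omega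
            rw [this]
          rw [hji', h6, hji]
          linarith
        · have h7 := ih (j + 1) (by omega) hd
          rw [h6] at h7
          push_cast at h7
          nlinarith
    exact key (i - i') i' (by omega) (by omega)
  · -- i < i'
    have key : ∀ d, ∀ j, i + d = j → 0 < d → j < m →
        0 < ((i : ℤ) - j) * (2 * (expo b W (i * b + e) : ℤ)) + kap b W j - kap b W i := by
      intro d
      induction d with
      | zero => intro j _ h0; omega
      | succ d ih =>
        intro j hj _ hjm
        obtain ⟨j', rfl⟩ : ∃ j', j = j' + 1 := ⟨j - 1, by omega⟩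
        have h3 : expo b W (i * b + e) < expo b W ((j' + 1) * b) := by
          apply expo_mono b W (m * b) hb hW
          · exact lt_of_lt_of_le hk (Nat.mul_le_mul_right b (by omega))
          · exact Nat.mul_le_mul_right b (by omega)
        have h3' : (expo b W (i * b + e) : ℤ) + 1 ≤ expo b W ((j' + 1) * b) := by exact_mod_cast h3
        have h6 : kap b W (j' + 1) = kap b W j' + (2 * (expo b W ((j' + 1) * b) : ℤ) - 1) := rfl
        rcases Nat.eq_zero_or_pos d with hd | hd
        · have hji : j' = i := by omega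
          subst hji
          push_cast
          rw [h6]
          nlinarith
        · have h7 := ih j' (by omega) hd (by omega)
          rw [h6]
          push_cast
          nlinarith
    exact key (i' - i) i' (by omega) (by omega) hi'

/-- The scaled system has only the trivial solution. -/
lemma exists_tau (m b : ℕ) (hb : 0 < b) : ∃ τ : ℝ, 0 < τ ∧ ∃ W : ℕ, ∀ G : ℕ → ℝ,
    (∀ i < m, ∀ c : Fin b, ∑ k ∈ Finset.range (m * b),
      G k * (uvec b k c * τ ^ (2 * i * expo b W k)) = 0) → ∀ k < m * b, G k = 0 := by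
  set W := b + m * b with hW
  set wz : Fin m → Fin b → Fin m → ℤ := fun i e i' =>
    (((i : ℕ) : ℤ) - ((i' : ℕ) : ℤ)) * (2 * (expo b W (i * b + e) : ℤ)) + kap b W i' - kap b W i with hwz
  have hwz0 : ∀ i e, wz i e i = 0 := by
    intro i e; simp [hwz]
  have hwz1 : ∀ i e i', i' ≠ i → 0 < wz i e i' := by
    intro i e i' hne
    apply kap_lt b W m hb le_rfl i i.2 e e.2 i' i'.2
    intro h; exact hne (Fin.ext h)
  have hwz2 : ∀ i e i', 0 ≤ wz i e i' := by
    intro i e i'
    by_cases h : i' = i
    · rw [h, hwz0]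
    · exact (hwz1 i e i' h).le
  obtain ⟨ε, hε, hli⟩ := exists_eps (m := m) (b := b) (fun i e => uvec b (i * b + e))
    (fun i => uvec_li b hb (i * b)) (fun i e i' => (wz i e i').toNat) (by
      intro i e i'
      constructor
      · intro h
        by_contra hne
        have := hwz1 i e i' hne
        omega
      · intro h
        rw [h, hwz0]; rfl)
  refine ⟨ε⁻¹, inv_pos.2 hε, W, ?_⟩
  intro G hG
  rw [Fintype.linearIndependent_iff] at hli
  have hε0 : ε ≠ 0 := ne_of_gt hε
  -- scaled coefficients
  set PP : Fin m × Fin b → ℤ := fun p => ((p.1 : ℕ) : ℤ) * (2 * (expo b W (p.1 * b + p.2) : ℤ)) - kap b W p.1 with hPP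
  have h1 := hli (fun p => G (p.1 * b + p.2) * ε ^ (-(PP p))) (by
    funext q
    obtain ⟨i', c⟩ := q
    simp only [Finset.sum_apply, Pi.smul_apply, smul_eq_mul, Pi.zero_apply]
    have h2 := hG i' i'.2 c
    have h3 : ∑ k ∈ Finset.range (m * b), G k * (uvec b k c * ε⁻¹ ^ (2 * (i' : ℕ) * expo b W k))
        = ∑ p : Fin m × Fin b, G (p.1 * b + p.2) *
            (uvec b (p.1 * b + p.2) c * ε⁻¹ ^ (2 * (i' : ℕ) * expo b W (p.1 * b + p.2))) := by
      rw [Finset.sum_range, ← finProdFinEquiv.sum_comp]
      apply Finset.sum_congr rfl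
      intro p _
      have : ((finProdFinEquiv p : Fin (m * b)) : ℕ) = p.1 * b + p.2 := by
        simp [finProdFinEquiv]; ring
      rw [this]
    rw [h3] at h2
    have h4 : ε ^ (kap b W i') * (∑ p : Fin m × Fin b, G (p.1 * b + p.2) *
            (uvec b (p.1 * b + p.2) c * ε⁻¹ ^ (2 * (i' : ℕ) * expo b W (p.1 * b + p.2)))) = 0 := by
      rw [h2, mul_zero]
    rw [← h4, Finset.mul_sum]
    apply Finset.sum_congr rfl
    intro p _
    have h5 : ε ^ (wz p.1 p.2 i').toNat = ε ^ (kap b W i') * ε ^ (PP p) *
        ε⁻¹ ^ (2 * (i' : ℕ) * expo b W (p.1 * b + p.2)) := by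
      rw [← zpow_natCast, Int.toNat_of_nonneg (hwz2 _ _ _), inv_pow, ← zpow_natCast ε (2 * _ * _),
        ← zpow_neg, ← zpow_add₀ hε0, ← zpow_add₀ hε0]
      congr 1
      simp only [hwz, hPP]
      push_cast
      ring
    rw [h5, zpow_neg]
    have h6 : ε ^ (PP p) ≠ 0 := zpow_ne_zero _ hε0
    field_simp)
  intro k hk
  have hb' : k = (k / b) * b + k % b := by
    have := Nat.div_add_mod k b
    rw [mul_comm] at this
    exact this.symm
  have hkm : k / b < m := by
    rw [Nat.div_lt_iff_lt_mul hb]; exact hk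
  have h2 := h1 (⟨k / b, hkm⟩, ⟨k % b, Nat.mod_lt _ hb⟩)
  simp only at h2
  rw [← hb'] at h2
  rcases mul_eq_zero.1 h2 with h3 | h3
  · exact h3
  · exact absurd h3 (zpow_ne_zero _ hε0)

end Pool.Agent.Cofactor
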