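import Mathlib

set_option autoImplicit false

open Polynomial

namespace Pool.Agent.Cofactor

/-- Successor in the lexicographic order on pairs `(r,t)` with `t < b + r`. -/
def nxt (b : ℕ) (p : ℕ × ℕ) : ℕ × ℕ :=
  if p.2 + 1 < b + p.1 then (p.1, p.2 + 1) else (p.1 + 1, 0)

/-- The lexicographic enumeration of the pairs `(r,t)` with `t < b + r`. -/
def sq (b : ℕ) : ℕ → ℕ × ℕ
  | 0 => (0, 0)
  | k + 1 => nxt b (sq b k)

lemma sq_lt (b : ℕ) (hb : 0 < b) (k : ℕ) : (sq b k).2 < b + (sq b k).1 := by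
  induction k with
  | zero => simpa [sq] using hb
  | succ k ih =>
    simp only [sq, nxt]
    split_ifs with h
    · exact h
    · simp

lemma sq_add (b k r t e : ℕ) (h : sq b k = (r, t)) (he : t + e < b + r) :
    sq b (k + e) = (r, t + e) := by
  induction e with
  | zero => simpa using h
  | succ e ih =>
    have h1 := ih (by omega)
    rw [← add_assoc]
    simp only [sq, nxt, h1]
    rw [if_pos (by omega)]
    rfl

lemma sq_wrap (b k r t : ℕ) (h : sq b k = (r, t)) (ht : t < b + r) :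
    sq b (k + (b + r - t)) = (r + 1, 0) := by
  obtain ⟨e, he⟩ : ∃ e, b + r - t = e + 1 := ⟨b + r - t - 1, by omega⟩
  rw [he, ← add_assoc]
  have h1 := sq_add b k r t e h (by omega)
  simp only [sq, nxt, h1]
  rw [if_neg (by omega)]

lemma sq_start (b : ℕ) (hb : 0 < b) (r : ℕ) : sq b (r * b + r.choose 2) = (r, 0) := by
  induction r with
  | zero => simp [sq]
  | succ r ih =>
    have h1 := sq_wrap b _ r 0 ih (by omega)
    have h2 : (r + 1).choose 2 = r.choose 2 + r := by
      rw [Nat.choose_succ_succ' r 1]; simp; omega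
    have h3 : (r + 1) * b + (r + 1).choose 2 = r * b + r.choose 2 + (b + r - 0) := by
      rw [h2]; ring_nf; omega
    rw [h3]; exact h1

lemma isCoprime_X_one_add (a c : ℕ) : IsCoprime ((X : ℝ[X]) ^ a) ((1 + X) ^ c) := by
  apply IsCoprime.pow
  refine ⟨-1, 1, by ring⟩

lemma natDegree_one_add_X : (1 + X : ℝ[X]).natDegree = 1 := by
  rw [add_comm]; simpa using natDegree_X_add_C (1 : ℝ)

lemma one_add_X_ne : (1 + X : ℝ[X]) ≠ 0 := by
  intro h
  have := natDegree_one_add_X
  rw [h] at this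
  simp at this

lemma natDegree_one_add_X_pow (r : ℕ) : ((1 + X : ℝ[X]) ^ r).natDegree = r := by
  rw [natDegree_pow, natDegree_one_add_X, mul_one]

/-- A window of consecutive coefficients inside a single row. -/
lemma window_one (b r t0 : ℕ) (ht : t0 ≤ r) (φ : ℝ[X]) (hφ : φ.degree < b)
    (h : ∀ e < b, (φ * (1 + X) ^ r).coeff (t0 + e) = 0) : φ = 0 := by
  by_contra hne
  have hb : φ.natDegree < b := (natDegree_lt_iff_degree_lt hne).2 hφ
  set ψ : ℝ[X] := φ * (1 + X) ^ r with hψ
  have hψne : ψ ≠ 0 := mul_ne_zero hne (pow_ne_zero _ one_add_X_ne)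
  have hψdeg : ψ.natDegree = φ.natDegree + r := by
    rw [hψ, natDegree_mul hne (pow_ne_zero _ one_add_X_ne), natDegree_one_add_X_pow]
  have hdvd : (1 + X : ℝ[X]) ^ r ∣ ψ := ⟨φ, by rw [hψ]; ring⟩
  have h1 : (1 + X : ℝ[X]) ^ (r - t0) ∣ derivative^[t0] ψ :=
    pow_sub_dvd_iterate_derivative_of_pow_dvd t0 hdvd
  have h2 : (X : ℝ[X]) ^ b ∣ derivative^[t0] ψ := by
    rw [X_pow_dvd_iff]
    intro d hd
    rw [coeff_iterate_derivative]
    have := h d hd
    rw [add_comm d t0, this, smul_zero]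
  have h3 : (X : ℝ[X]) ^ b * (1 + X) ^ (r - t0) ∣ derivative^[t0] ψ :=
    (isCoprime_X_one_add b (r - t0)).mul_dvd h2 h1
  have h4 : derivative^[t0] ψ = 0 := by
    by_contra h4
    have h5 := natDegree_le_of_dvd h3 h4
    rw [natDegree_mul (pow_ne_zero _ X_ne_zero) (pow_ne_zero _ one_add_X_ne),
      natDegree_one_add_X_pow, natDegree_X_pow] at h5
    have h6 := natDegree_iterate_derivative ψ t0
    omega
  -- hence `ψ` has degree `< t0`
  have h5 : ψ.natDegree < t0 := by
    by_contra h5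
    push Not at h5
    have h6 : (derivative^[t0] ψ).coeff (ψ.natDegree - t0) = 0 := by rw [h4]; simp
    rw [coeff_iterate_derivative, Nat.sub_add_cancel h5] at h6
    rw [nsmul_eq_mul] at h6
    rcases mul_eq_zero.1 h6 with h7 | h7
    · have h8 : (ψ.natDegree.descFactorial t0) = 0 := by exact_mod_cast h7
      rw [Nat.descFactorial_eq_zero_iff_lt] at h8
      omega
    · exact hψne (leadingCoeff_eq_zero.1 h7)
  have h6 := natDegree_le_of_dvd hdvd hψne
  rw [natDegree_one_add_X_pow] at h6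
  omega

/-- A window of consecutive coefficients that wraps around to the next row. -/
lemma window_two (b r t0 : ℕ) (ht : r < t0) (φ : ℝ[X]) (hφ : φ.degree < b)
    (h1 : ∀ t, t0 ≤ t → t < b + r → (φ * (1 + X) ^ r).coeff t = 0)
    (h2 : ∀ t, t < t0 - r → (φ * (1 + X) ^ (r + 1)).coeff t = 0) : φ = 0 := by
  by_contra hne
  have hb : φ.natDegree < b := (natDegree_lt_iff_degree_lt hne).2 hφ
  have hψdeg : (φ * (1 + X) ^ r).natDegree = φ.natDegree + r := by
    rw [natDegree_mul hne (pow_ne_zero _ one_add_X_ne), natDegree_one_add_X_pow]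
  have hψne : φ * (1 + X) ^ r ≠ 0 := mul_ne_zero hne (pow_ne_zero _ one_add_X_ne)
  have h3 : φ.natDegree + r < t0 := by
    by_contra h3
    push Not at h3
    have h4 := h1 (φ.natDegree + r) h3 (by omega)
    rw [← hψdeg] at h4
    exact hψne (leadingCoeff_eq_zero.1 h4)
  have h4 : (X : ℝ[X]) ^ (t0 - r) ∣ φ * (1 + X) ^ (r + 1) := by
    rw [X_pow_dvd_iff]
    exact h2
  have h5 : (X : ℝ[X]) ^ (t0 - r) ∣ φ :=
    (isCoprime_X_one_add (t0 - r) (r + 1)).dvd_of_dvd_mul_right h4
  have h6 := natDegree_le_of_dvd h5 hne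
  rw [natDegree_X_pow] at h6
  omega

/-- The window lemma. -/
lemma window (b : ℕ) (hb0 : 0 < b) (k : ℕ) (φ : ℝ[X]) (hφ : φ.degree < b)
    (h : ∀ e < b, (φ * (1 + X) ^ (sq b (k + e)).1).coeff (sq b (k + e)).2 = 0) : φ = 0 := by
  obtain ⟨r, t0, hrt⟩ : ∃ r t0, sq b k = (r, t0) := ⟨_, _, rfl⟩
  have hlt : t0 < b + r := by
    have := sq_lt b hb0 k
    rw [hrt] at this
    exact this
  rcases le_or_gt t0 r with h0 | h0
  · refine window_one b r t0 h0 φ hφ ?_
    intro e he
    have h1 := h e he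
    rw [sq_add b k r t0 e hrt (by omega)] at h1
    exact h1
  · refine window_two b r t0 h0 φ hφ ?_ ?_
    · intro t ht1 ht2
      have h1 := h (t - t0) (by omega)
      rw [sq_add b k r t0 (t - t0) hrt (by omega)] at h1
      have h2 : t0 + (t - t0) = t := by omega
      rw [h2] at h1
      exact h1
    · intro t ht1
      have h1 := h (b + r - t0 + t) (by omega)
      have h2 := sq_wrap b k r t0 hrt hlt
      have h3 := sq_add b _ (r + 1) 0 t h2 (by omega)
      rw [add_assoc] at h3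
      rw [h3] at h1
      simpa using h1

/-- The vector attached to index `k`. -/
noncomputable def uvec (b : ℕ) (k : ℕ) (c : Fin b) : ℝ :=
  ((X : ℝ[X]) ^ (c : ℕ) * (1 + X) ^ (sq b k).1).coeff (sq b k).2

lemma uvec_li (b : ℕ) (hb0 : 0 < b) (k : ℕ) :
    LinearIndependent ℝ (fun e : Fin b => uvec b (k + e)) := by
  set A : Matrix (Fin b) (Fin b) ℝ := Matrix.of (fun e : Fin b => uvec b (k + e)) with hA
  have hrow : (fun e : Fin b => uvec b (k + e)) = A.row := rfl
  rw [hrow, Matrix.linearIndependent_rows_iff_isUnit, ← Matrix.mulVec_injective_iff_isUnit]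
  rw [← Matrix.coe_mulVecLin, injective_iff_map_eq_zero]
  intro v hv
  set φ : ℝ[X] := ∑ c : Fin b, C (v c) * X ^ (c : ℕ) with hφ
  have hdeg : φ.degree < b := by
    rw [hφ]
    apply degree_sum_fin_lt
  have hzero : φ = 0 := by
    apply window b hb0 k φ hdeg
    intro e he
    have h1 := congrFun hv ⟨e, he⟩
    simp only [Matrix.mulVecLin_apply, Matrix.mulVec, dotProduct, Pi.zero_apply, hA, Matrix.of_apply,
      uvec] at h1
    rw [hφ, Finset.sum_mul, finsetSum_coeff, ← h1]
    apply Finset.sum_congr rfl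
    intro c _
    rw [mul_assoc, coeff_C_mul, mul_comm]
  funext c
  have h2 : φ.coeff c = v c := by
    rw [hφ, finsetSum_coeff]
    simp only [coeff_C_mul, coeff_X_pow]
    rw [Finset.sum_eq_single c]
    · simp
    · intro d _ hd
      have : (c : ℕ) ≠ d := fun h => hd (Fin.ext h.symm)
      simp [this]
    · simp
  rw [← h2, hzero]
  simp

end Pool.Agent.Cofactor
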